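import Pool.Agent.H40R.Prob
import Pool.Agent.H14Trans.Cor

/-!
# The reciprocal sum of a random set of primes
-/

set_option autoImplicit false

namespace Pool.Agent.H40R

open MeasureTheory ProbabilityTheory Filter Topology Pool.Agent.H14Trans

/-- The primes. -/
def PP : Set ℕ := {p | p.Prime}

section
variable {Ω : Type*} [MeasurableSpace Ω] {μ : Measure Ω} {E : ℕ → Set Ω} {c : ℝ}

lemma lln_cheb (hE : ∀ p ∈ PP, MeasurableSet (E p)) (hI : iIndepSet (fun p : PP => E p) μ)
    (hc : ∀ p ∈ PP, μ.real (E p) = c) (m : ℕ) {δ : ℝ} (hδ : 0 < δ) :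
    μ {ω | δ ≤ |∑ p ∈ (Finset.range m).filter Nat.Prime,
        (E p).indicator (fun _ => (1 : ℝ) / p) ω -
      c * ∑ p ∈ (Finset.range m).filter Nat.Prime, (1 : ℝ) / p|} ≤ ENNReal.ofReal (1 / δ ^ 2) := by
  classical
  have hpm : IsProbabilityMeasure μ := hI.isProbabilityMeasure
  set F : Finset ℕ := (Finset.range m).filter Nat.Prime with hF
  have hFP : ∀ p ∈ F, p ∈ PP := fun p hp => (Finset.mem_filter.mp hp).2
  set F' : Finset PP := F.subtype (· ∈ PP) with hF'
  set X : PP → Ω → ℝ := fun p => (E p).indicator (fun _ => (1 : ℝ) / (p : ℕ)) with hX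
  have hXm : ∀ p : PP, Measurable (X p) := fun p =>
    measurable_const.indicator (hE p p.2)
  have hX01 : ∀ (p : PP) (ω : Ω), X p ω ∈ Set.Icc (0 : ℝ) (1 / (p : ℕ)) := by
    intro p ω
    simp only [hX, Set.indicator_apply]
    have h0 : (0 : ℝ) ≤ 1 / ((p : ℕ) : ℝ) := by positivity
    split_ifs
    · exact ⟨h0, le_rfl⟩
    · exact ⟨le_rfl, h0⟩
  have hL2 : ∀ p : PP, MemLp (X p) 2 μ := by
    intro p
    refine MemLp.of_bound (hXm p).aestronglyMeasurable (1 / ((p : ℕ) : ℝ))
      (Eventually.of_forall fun ω => ?_)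
    rw [Real.norm_eq_abs, abs_of_nonneg (hX01 p ω).1]
    exact (hX01 p ω).2
  have hind : ∀ p q : PP, p ≠ q → X p ⟂ᵢ[μ] X q := by
    intro p q hpq
    have h1 := (hI.iIndepFun_indicator (β := ℝ) (m := inferInstance)).indepFun hpq
    have h2 := h1.comp (φ := fun x => x * (1 / ((p : ℕ) : ℝ)))
      (ψ := fun x => x * (1 / ((q : ℕ) : ℝ))) (measurable_id.mul_const _)
      (measurable_id.mul_const _)
    have h3 : ∀ r : PP, (fun x : ℝ => x * (1 / ((r : ℕ) : ℝ))) ∘
        ((E r).indicator fun _ω => (1 : ℝ)) = X r := by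
      intro r
      funext ω
      simp only [Function.comp_apply, hX, Set.indicator_apply]
      split_ifs <;> simp
    rw [h3, h3] at h2
    exact h2
  have hvar : variance (∑ p ∈ F', X p) μ ≤ 1 := by
    rw [IndepFun.variance_sum (fun p _ => hL2 p) (fun p _ q _ hpq => hind p q hpq)]
    calc ∑ p ∈ F', variance (X p) μ ≤ ∑ p ∈ F', (1 : ℝ) / ((p : ℕ) : ℝ) ^ 2 := by
          refine Finset.sum_le_sum fun p _ => ?_
          refine (variance_le_sq_of_bounded (Eventually.of_forall (hX01 p))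
            (hXm p).aemeasurable).trans ?_
          rw [sub_zero, div_div, div_pow, one_pow]
          have hp0 : (0 : ℝ) < ((p : ℕ) : ℝ) := by exact_mod_cast (p.2 : Nat.Prime p).pos
          refine one_div_le_one_div_of_le (by positivity) ?_
          nlinarith
      _ = ∑ p ∈ F, (1 : ℝ) / (p : ℝ) ^ 2 :=
          Finset.sum_subtype_of_mem (p := (· ∈ PP)) (fun p : ℕ => (1 : ℝ) / (p : ℝ) ^ 2) hFP
      _ ≤ ∑ p ∈ Finset.Icc 2 m, (1 : ℝ) / (p : ℝ) ^ 2 := by
          refine Finset.sum_le_sum_of_subset_of_nonneg ?_ fun p _ _ => by positivity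
          intro p hp
          rw [hF, Finset.mem_filter, Finset.mem_range] at hp
          rw [Finset.mem_Icc]
          exact ⟨hp.2.two_le, hp.1.le⟩
      _ ≤ 1 := sum_inv_sq_le m
  have hexp : ∫ ω, (∑ p ∈ F', X p) ω ∂μ = c * ∑ p ∈ F, (1 : ℝ) / p := by
    have h1 : ∀ ω, (∑ p ∈ F', X p) ω = ∑ p ∈ F', X p ω := fun ω => Finset.sum_apply _ _ _
    simp only [h1]
    rw [integral_finsetSum _ (fun p _ => (hL2 p).integrable one_le_two)]
    have h2 : ∀ p : PP, ∫ ω, X p ω ∂μ = c * (1 / ((p : ℕ) : ℝ)) := by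
      intro p
      simp only [hX]
      rw [integral_indicator_const _ (hE p p.2), hc p p.2, smul_eq_mul]
    simp only [h2]
    rw [← Finset.mul_sum]
    congr 1
    exact Finset.sum_subtype_of_mem (p := (· ∈ PP)) (fun p : ℕ => (1 : ℝ) / (p : ℝ)) hFP
  have hmem : MemLp (∑ p ∈ F', X p) 2 μ := memLp_finsetSum' _ fun p _ => hL2 p
  have hch := meas_ge_le_variance_div_sq hmem hδ
  rw [hexp] at hch
  have h3 : ∀ ω, (∑ p ∈ F', X p) ω = ∑ p ∈ F, (E p).indicator (fun _ => (1 : ℝ) / p) ω := by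
    intro ω
    rw [Finset.sum_apply]
    exact Finset.sum_subtype_of_mem (p := (· ∈ PP))
      (fun p : ℕ => (E p).indicator (fun _ => (1 : ℝ) / p) ω) hFP
  simp only [h3] at hch
  refine hch.trans (ENNReal.ofReal_le_ofReal ?_)
  gcongr

omit [MeasurableSpace Ω] in
lemma recip_eq_indicator (ω : Ω) (x : ℝ) :
    recip {p | p ∈ PP ∧ ω ∈ E p} x = ∑ p ∈ (Finset.range ⌈x⌉₊).filter Nat.Prime,
        (E p).indicator (fun _ => (1 : ℝ) / p) ω := by
  classical
  unfold recip
  rw [Finset.sum_filter, Finset.sum_filter]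
  refine Finset.sum_congr rfl fun p _ => ?_
  simp only [Set.indicator_apply, PP, Set.mem_ofPred_eq]
  by_cases h1 : p.Prime <;> by_cases h2 : ω ∈ E p <;> simp [h1, h2]

/-- The law of large numbers for the reciprocal sum. -/
theorem lln (hE : ∀ p ∈ PP, MeasurableSet (E p)) (hI : iIndepSet (fun p : PP => E p) μ)
    (hc : ∀ p ∈ PP, μ.real (E p) = c) :
    ∀ᵐ ω ∂μ, Tendsto (fun x : ℝ => recip {p | p ∈ PP ∧ ω ∈ E p} x / Real.log (Real.log x))
      atTop (𝓝 c) := by
  have hpm : IsProbabilityMeasure μ := hI.isProbabilityMeasure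
  have hc0 : 0 ≤ c := by rw [← hc 2 Nat.prime_two]; exact measureReal_nonneg
  have hc1 : c ≤ 1 := by rw [← hc 2 Nat.prime_two]; exact measureReal_le_one
  set m : ℕ → ℕ := fun j => ⌈Real.exp (Real.exp j)⌉₊ with hm
  set δ : ℕ → ℝ := fun j => ((j : ℝ) + 1) ^ (3 / 4 : ℝ) with hδ
  have hδ0 : ∀ j, 0 < δ j := fun j => by positivity
  set Bd : ℕ → Set Ω := fun j => {ω | δ j ≤ |∑ p ∈ (Finset.range (m j)).filter Nat.Prime,
        (E p).indicator (fun _ => (1 : ℝ) / p) ω -
      c * ∑ p ∈ (Finset.range (m j)).filter Nat.Prime, (1 : ℝ) / p|} with hBd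
  have hsum : Summable (fun j : ℕ => 1 / δ j ^ 2) := by
    have h1 : Summable (fun j : ℕ => 1 / (j : ℝ) ^ (3 / 2 : ℝ)) :=
      Real.summable_one_div_nat_rpow.mpr (by norm_num)
    have h2 := (summable_nat_add_iff 1).mpr h1
    refine h2.congr fun j => ?_
    simp only [hδ]
    push_cast
    rw [← Real.rpow_natCast, ← Real.rpow_mul (by positivity)]
    norm_num
  have hne : ∑' j, μ (Bd j) ≠ ⊤ :=
    ne_top_of_le_ne_top hsum.tsum_ofReal_ne_top
      (ENNReal.tsum_le_tsum fun j => lln_cheb hE hI hc (m j) (hδ0 j))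
  filter_upwards [ae_eventually_notMem hne] with ω hω
  obtain ⟨J, hJ⟩ := eventually_atTop.mp hω
  -- the value at the points `exp (exp j)`
  have hval : ∀ j : ℕ, J ≤ j → 1 ≤ j →
      |recip {p | p ∈ PP ∧ ω ∈ E p} (Real.exp (Real.exp j)) - c * j| ≤ δ j + 16 := by
    intro j hj hj1
    have h1 := hJ j hj
    simp only [hBd, Set.mem_ofPred_eq, not_le] at h1
    rw [recip_eq_indicator]
    have hj1' : (1 : ℝ) ≤ j := by exact_mod_cast hj1
    have hx3 : (3 : ℝ) ≤ Real.exp (Real.exp j) := by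
      have h2 : 1 + 1 ≤ Real.exp 1 := Real.add_one_le_exp 1
      have h3 : Real.exp 1 ≤ Real.exp j := Real.exp_le_exp.mpr hj1'
      have h4 : Real.exp j + 1 ≤ Real.exp (Real.exp j) := Real.add_one_le_exp _
      linarith
    have h2 := prime_sum_bound hx3
    rw [Real.log_exp, Real.log_exp] at h2
    have h3 : |c * ∑ p ∈ (Finset.range (m j)).filter Nat.Prime, (1 : ℝ) / p - c * j| ≤ 16 := by
      rw [← mul_sub, abs_mul, abs_of_nonneg hc0]
      calc c * |∑ p ∈ (Finset.range (m j)).filter Nat.Prime, (1 : ℝ) / p - j| ≤ 1 * 16 := by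
            gcongr
        _ = 16 := one_mul _
    calc |∑ p ∈ (Finset.range (m j)).filter Nat.Prime,
          (E p).indicator (fun _ => (1 : ℝ) / p) ω - c * j|
        ≤ |∑ p ∈ (Finset.range (m j)).filter Nat.Prime,
          (E p).indicator (fun _ => (1 : ℝ) / p) ω -
            c * ∑ p ∈ (Finset.range (m j)).filter Nat.Prime, (1 : ℝ) / p| +
          |c * ∑ p ∈ (Finset.range (m j)).filter Nat.Prime, (1 : ℝ) / p - c * j| :=
          abs_sub_le _ _ _
      _ ≤ δ j + 16 := add_le_add h1.le h3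
  -- interpolation
  have hmain : ∀ᶠ x : ℝ in atTop, |recip {p | p ∈ PP ∧ ω ∈ E p} x / Real.log (Real.log x) - c| ≤
      (18 + (Real.log (Real.log x) + 2) ^ (3 / 4 : ℝ)) / Real.log (Real.log x) := by
    have hll : Tendsto (fun x : ℝ => Real.log (Real.log x)) atTop atTop :=
      Real.tendsto_log_atTop.comp Real.tendsto_log_atTop
    filter_upwards [hll.eventually (eventually_ge_atTop ((J : ℝ) + 2)),
      eventually_gt_atTop (1 : ℝ)] with x hx hx1
    set u := Real.log (Real.log x) with hu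
    have hu0 : 0 < u := by
      have : (0 : ℝ) ≤ J := by positivity
      linarith
    set j := ⌊u⌋₊ with hj
    have hj1 : (j : ℝ) ≤ u := Nat.floor_le hu0.le
    have hj2 : u < j + 1 := Nat.lt_floor_add_one u
    have hJj : J + 1 ≤ j := by
      have : ((J + 1 : ℕ) : ℝ) < j + 1 := by push_cast; linarith
      have : J + 1 < j + 1 := by exact_mod_cast this
      omega
    have hlx : 0 < Real.log x := Real.log_pos hx1
    have hxe : x = Real.exp (Real.exp u) := by
      rw [hu, Real.exp_log hlx, Real.exp_log (by linarith)]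
    have h1 : Real.exp (Real.exp j) ≤ x := by
      rw [hxe]; exact Real.exp_le_exp.mpr (Real.exp_le_exp.mpr hj1)
    have h2 : x ≤ Real.exp (Real.exp ((j + 1 : ℕ) : ℝ)) := by
      rw [hxe]; refine Real.exp_le_exp.mpr (Real.exp_le_exp.mpr ?_)
      push_cast; exact hj2.le
    have h3 := recip_mono {p | p ∈ PP ∧ ω ∈ E p} h1
    have h4 := recip_mono {p | p ∈ PP ∧ ω ∈ E p} h2
    have h5 := abs_le.mp (hval j (by omega) (by omega))
    have h6 := abs_le.mp (hval (j + 1) (by omega) (by omega))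
    have hδ1 : δ j ≤ (u + 2) ^ (3 / 4 : ℝ) := by
      refine Real.rpow_le_rpow (by positivity) ?_ (by norm_num)
      linarith
    have hδ2 : δ (j + 1) ≤ (u + 2) ^ (3 / 4 : ℝ) := by
      refine Real.rpow_le_rpow (by positivity) ?_ (by norm_num)
      push_cast
      linarith
    push_cast at h4 h6
    have h8 : c * j ≤ c * u := mul_le_mul_of_nonneg_left hj1 hc0
    have h9 : c * u ≤ c * (j + 1) := mul_le_mul_of_nonneg_left hj2.le hc0
    have h7 : recip {p | p ∈ PP ∧ ω ∈ E p} x / u - c =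
        (recip {p | p ∈ PP ∧ ω ∈ E p} x - c * u) / u := by field_simp
    rw [h7, abs_div, abs_of_pos hu0]
    refine div_le_div_of_nonneg_right ?_ hu0.le
    rw [abs_le]
    constructor
    · linarith [h5.1]
    · linarith [h6.2]
  have hlim : Tendsto (fun x : ℝ => (18 + (Real.log (Real.log x) + 2) ^ (3 / 4 : ℝ)) /
      Real.log (Real.log x)) atTop (𝓝 0) := by
    have hll : Tendsto (fun x : ℝ => Real.log (Real.log x)) atTop atTop :=
      Real.tendsto_log_atTop.comp Real.tendsto_log_atTop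
    have h1 : Tendsto (fun u : ℝ => (18 + (u + 2) ^ (3 / 4 : ℝ)) / u) atTop (𝓝 0) := by
      have h2 : Tendsto (fun u : ℝ => 18 / u + 3 * u ^ (-(1 / 4) : ℝ)) atTop (𝓝 (0 + 3 * 0)) :=
        (tendsto_id.const_div_atTop 18).add
          ((tendsto_rpow_neg_atTop (by norm_num : (0 : ℝ) < 1 / 4)).const_mul 3)
      rw [mul_zero, add_zero] at h2
      refine tendsto_of_tendsto_of_tendsto_of_le_of_le' tendsto_const_nhds h2 ?_ ?_
      · filter_upwards [eventually_gt_atTop (0 : ℝ)] with u hu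
        positivity
      · filter_upwards [eventually_ge_atTop (2 : ℝ)] with u hu
        have hu0 : 0 < u := by linarith
        have h3 : (u + 2) ^ (3 / 4 : ℝ) ≤ 3 * u ^ (3 / 4 : ℝ) := by
          calc (u + 2) ^ (3 / 4 : ℝ) ≤ (2 * u) ^ (3 / 4 : ℝ) :=
                Real.rpow_le_rpow (by positivity) (by linarith) (by norm_num)
            _ = 2 ^ (3 / 4 : ℝ) * u ^ (3 / 4 : ℝ) := Real.mul_rpow (by norm_num) hu0.le
            _ ≤ 3 * u ^ (3 / 4 : ℝ) := by
                refine mul_le_mul_of_nonneg_right ?_ (by positivity)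
                calc (2 : ℝ) ^ (3 / 4 : ℝ) ≤ 2 ^ (1 : ℝ) :=
                      Real.rpow_le_rpow_of_exponent_le (by norm_num) (by norm_num)
                  _ ≤ 3 := by norm_num
        have h4 : u ^ (3 / 4 : ℝ) / u = u ^ (-(1 / 4) : ℝ) := by
          nth_rewrite 2 [← Real.rpow_one u]
          rw [← Real.rpow_sub hu0]
          norm_num
        rw [add_div]
        gcongr
        rw [← h4, ← mul_div_assoc]
        gcongr
    exact h1.comp hll
  rw [tendsto_iff_dist_tendsto_zero]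
  refine squeeze_zero' (Eventually.of_forall fun _ => dist_nonneg) ?_ hlim
  filter_upwards [hmain] with x hx
  rw [Real.dist_eq]
  exact hx

end

end Pool.Agent.H40R
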