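import Pool.Agent.H40R.Prob

/-!
# Few exceptional primes: no translation property
-/

set_option autoImplicit false

namespace Pool.Agent.H40R

open MeasureTheory ProbabilityTheory Filter Topology

section

/-- The odd primes. -/
def OP : Set ℕ := {p | p.Prime ∧ p ≠ 2}

/-- `B` consists of powers of odd primes and contains one with exponent at most `K` for each. -/
structure BPow (K : ℕ) (B : Set ℕ) : Prop where
  pow : ∀ m ∈ B, ∃ p ∈ OP, ∃ k, 1 ≤ k ∧ m = p ^ k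
  low : ∀ p ∈ OP, ∃ k, k ≤ K ∧ p ^ k ∈ B

lemma BPow.dvd {K : ℕ} {B : Set ℕ} (hB : BPow K B) {p m : ℕ} (hp : p ∈ OP)
    (h : p ^ K ∣ m) : ∃ b ∈ B, b ∣ m := by
  obtain ⟨k, hk, hb⟩ := hB.low p hp
  exact ⟨p ^ k, hb, (pow_dvd_pow p hk).trans h⟩

lemma BPow.two_pow {K : ℕ} {B : Set ℕ} (hB : BPow K B) (i : ℕ) : ∀ b ∈ B, ¬ b ∣ 2 ^ i := by
  intro b hb hd
  obtain ⟨p, hp, k, hk, rfl⟩ := hB.pow b hb
  have h1 := hp.1.dvd_of_dvd_pow ((dvd_pow_self p (by omega)).trans hd)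
  exact hp.2 ((Nat.prime_dvd_prime_iff_eq hp.1 Nat.prime_two).mp h1)

lemma not_periodic {K : ℕ} {B : Set ℕ} (hB : BPow K B) {t : ℕ} (ht : 1 ≤ t) :
    ¬ ∀ a, 1 ≤ a → ((∀ b ∈ B, ¬ b ∣ a) ↔ ∀ b ∈ B, ¬ b ∣ a + t) := by
  intro h
  have h1 : ∀ m : ℕ, ∀ b ∈ B, ¬ b ∣ t * m + 1 := by
    intro m
    induction m with
    | zero => simpa using hB.two_pow 0
    | succ m ih =>
      have := (h (t * m + 1) (by omega)).mp ih
      rwa [show t * m + 1 + t = t * (m + 1) + 1 by ring] at this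
  obtain ⟨p, hpt, hp⟩ := Nat.exists_infinite_primes (t + 3)
  have hc : t.Coprime (p ^ K) := by
    refine Nat.Coprime.pow_right K ((Nat.Prime.coprime_iff_not_dvd hp).mpr fun hd => ?_).symm
    have := Nat.le_of_dvd ht hd
    omega
  obtain ⟨m, _, hm⟩ := Pool.Agent.H14Trans.exists_res (a := 1) (Nat.pow_pos hp.pos) hc
  obtain ⟨b, hb, hbd⟩ := hB.dvd ⟨hp, by omega⟩ hm
  exact h1 m b hb hbd

lemma dvd_bound {k K p₀ m : ℕ} (h2 : ¬ 2 ^ k ∣ m) (hp : ∀ p : ℕ, p.Prime → p ≠ 2 → ¬ p ^ K ∣ m)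
    (L : Finset ℕ) (hL : ∀ p : ℕ, p.Prime → p₀ ≤ p → p ∣ m → p ∈ L) :
    m ∣ 2 ^ k * p₀.factorial ^ K * ∏ p ∈ L, p ^ K := by
  rw [Nat.dvd_iff_prime_pow_dvd_dvd]
  intro p j hpp hj
  rcases Nat.eq_zero_or_pos j with h0 | h0
  · subst h0; simp
  have hpm : p ∣ m := (dvd_pow_self p (by omega)).trans hj
  by_cases hp2 : p = 2
  · subst hp2
    have hjk : j ≤ k := by
      by_contra hcon
      exact h2 ((pow_dvd_pow 2 (by omega)).trans hj)
    exact ((pow_dvd_pow 2 hjk).trans (dvd_mul_right _ _)).trans (dvd_mul_right _ _)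
  · have hjK : j ≤ K := by
      by_contra hcon
      exact hp p hpp hp2 ((pow_dvd_pow p (by omega)).trans hj)
    by_cases hlt : p < p₀
    · have h3 : p ∣ p₀.factorial := (Nat.Prime.dvd_factorial hpp).mpr hlt.le
      have h4 : p ^ j ∣ p₀.factorial ^ K := (pow_dvd_pow p hjK).trans (pow_dvd_pow_of_dvd h3 K)
      exact (h4.trans (dvd_mul_left _ _)).trans (dvd_mul_right _ _)
    · have h3 : p ∈ L := hL p hpp (by omega) hpm
      have h4 : p ^ j ∣ ∏ p ∈ L, p ^ K :=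
        (pow_dvd_pow p hjK).trans (Finset.dvd_prod_of_mem (fun p => p ^ K) h3)
      exact h4.trans (dvd_mul_left _ _)

/-- The combinatorial bound. -/
lemma prod_bound {k K p₀ t : ℕ} (hk : 2 ^ k ≤ p₀) (ht : 1 ≤ t)
    (hp : ∀ i < k, ∀ p : ℕ, p.Prime → p ≠ 2 → ¬ p ^ K ∣ 2 ^ i + t) :
    t ^ (k - 1) ≤ (2 ^ k * p₀.factorial ^ K) ^ k *
      (∏ p ∈ (Finset.range k).biUnion (fun i => (2 ^ i + t).primeFactors.filter (p₀ ≤ ·)), p) ^ K := by
  classical
  set Li : ℕ → Finset ℕ := fun i => (2 ^ i + t).primeFactors.filter (p₀ ≤ ·) with hLi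
  set D := 2 ^ k * p₀.factorial ^ K with hD
  have hD1 : 1 ≤ D := Nat.mul_pos (by positivity) (Nat.pow_pos (Nat.factorial_pos _))
  set I := (Finset.range k).filter (fun i => ¬ 2 ^ k ∣ 2 ^ i + t) with hI
  have hLpos : ∀ p ∈ (Finset.range k).biUnion Li, 1 ≤ p := by
    intro p hp
    rw [Finset.mem_biUnion] at hp
    obtain ⟨i, _, hpi⟩ := hp
    exact (Nat.prime_of_mem_primeFactors (Finset.mem_filter.mp hpi).1).one_le
  have hIcard : k - 1 ≤ I.card := by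
    have h1 : ((Finset.range k).filter (fun i => 2 ^ k ∣ 2 ^ i + t)).card ≤ 1 := by
      rw [Finset.card_le_one]
      have key : ∀ i j, i < j → j < k → 2 ^ k ∣ 2 ^ i + t → 2 ^ k ∣ 2 ^ j + t → False := by
        intro i j hij hjk h1 h2
        have h3 : 2 ^ k ∣ (2 ^ j + t) - (2 ^ i + t) := Nat.dvd_sub h2 h1
        have h4 : 2 ^ i < 2 ^ j := Nat.pow_lt_pow_right (by norm_num) hij
        have h5 : 2 ^ j < 2 ^ k := Nat.pow_lt_pow_right (by norm_num) hjk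
        have h6 := Nat.le_of_dvd (Nat.sub_pos_of_lt (by omega)) h3
        have h7 : 0 < 2 ^ i := by positivity
        omega
      intro i hi j hj
      rw [Finset.mem_filter, Finset.mem_range] at hi hj
      rcases Nat.lt_trichotomy i j with h | h | h
      · exact (key i j h hj.1 hi.2 hj.2).elim
      · exact h
      · exact (key j i h hi.1 hj.2 hi.2).elim
    have h2 := Finset.card_filter_add_card_filter_not (s := Finset.range k)
      (fun i => 2 ^ k ∣ 2 ^ i + t)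
    rw [Finset.card_range] at h2
    rw [hI]
    omega
  have hdisj : (I : Set ℕ).PairwiseDisjoint Li := by
    have key : ∀ i j, i < j → j < k → Disjoint (Li i) (Li j) := by
      intro i j hij hjk
      rw [Finset.disjoint_left]
      intro p hp1 hp2
      rw [hLi, Finset.mem_filter, Nat.mem_primeFactors] at hp1 hp2
      have h3 : p ∣ (2 ^ j + t) - (2 ^ i + t) := Nat.dvd_sub hp2.1.2.1 hp1.1.2.1
      have h4 : 2 ^ i < 2 ^ j := Nat.pow_lt_pow_right (by norm_num) hij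
      have h5 : 2 ^ j < 2 ^ k := Nat.pow_lt_pow_right (by norm_num) hjk
      have h6 := Nat.le_of_dvd (Nat.sub_pos_of_lt (by omega)) h3
      have h7 := hp1.2
      have h8 : 0 < 2 ^ i := by positivity
      omega
    intro i hi j hj hij
    have hi' : i < k := Finset.mem_range.mp (Finset.mem_filter.mp hi).1
    have hj' : j < k := Finset.mem_range.mp (Finset.mem_filter.mp hj).1
    rcases Nat.lt_or_gt_of_ne hij with h | h
    · exact key i j h hj'
    · exact (key j i h hi').symm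
  have hstep : ∀ i ∈ I, t ≤ D * ∏ p ∈ Li i, p ^ K := by
    intro i hi
    rw [hI, Finset.mem_filter, Finset.mem_range] at hi
    have h1 : 2 ^ i + t ∣ D * ∏ p ∈ Li i, p ^ K := by
      refine dvd_bound hi.2 (hp i hi.1) (Li i) fun p hpp hp0 hpd => ?_
      rw [hLi, Finset.mem_filter, Nat.mem_primeFactors]
      have h8 : 0 < 2 ^ i := by positivity
      exact ⟨⟨hpp, hpd, by omega⟩, hp0⟩
    have h2 : 0 < D * ∏ p ∈ Li i, p ^ K := by
      refine Nat.mul_pos hD1 (Finset.prod_pos fun p hp => ?_)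
      exact Nat.pow_pos (Nat.prime_of_mem_primeFactors (Finset.mem_filter.mp hp).1).pos
    have h3 := Nat.le_of_dvd h2 h1
    exact le_trans (Nat.le_add_left t (2 ^ i)) h3
  calc t ^ (k - 1) ≤ t ^ I.card := Nat.pow_le_pow_right ht hIcard
    _ = ∏ i ∈ I, t := by rw [Finset.prod_const]
    _ ≤ ∏ i ∈ I, (D * ∏ p ∈ Li i, p ^ K) := Finset.prod_le_prod' hstep
    _ = D ^ I.card * ∏ p ∈ I.biUnion Li, p ^ K := by
        rw [Finset.prod_mul_distrib, Finset.prod_const, Finset.prod_biUnion hdisj]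
    _ ≤ D ^ k * ∏ p ∈ (Finset.range k).biUnion Li, p ^ K := by
        refine Nat.mul_le_mul (Nat.pow_le_pow_right hD1 ?_) ?_
        · have := Finset.card_le_card (Finset.filter_subset (fun i => ¬ 2 ^ k ∣ 2 ^ i + t)
            (Finset.range k))
          rwa [Finset.card_range] at this
        · refine Finset.prod_le_prod_of_subset_of_one_le'
            (Finset.biUnion_subset_biUnion_of_subset_left _ (Finset.filter_subset _ _)) ?_
          intro p hp _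
          exact Nat.one_le_pow _ _ (hLpos p hp)
    _ = D ^ k * (∏ p ∈ (Finset.range k).biUnion Li, p) ^ K := by rw [Finset.prod_pow]

end

section
variable {Ω : Type*} [MeasurableSpace Ω] {μ : Measure Ω} {E : ℕ → Set Ω} {B : Ω → Set ℕ}

lemma pat_bound (hI : iIndepSet (fun p : OP => E p) μ) {ε : ℝ} (hε : 0 < ε) {k K p₀ : ℕ}
    (hK : 1 ≤ K) (hB : ∀ ω, BPow K (B ω)) (hBE : ∀ ω, ∀ p ∈ OP, ω ∈ E p → p ∈ B ω)
    (hk : 2 ^ k ≤ p₀) (hp3 : 3 ≤ p₀)
    (hq : ∀ p ∈ OP, p₀ ≤ p → μ.real (E p)ᶜ ≤ (p : ℝ) ^ (-ε)) {t : ℕ} (ht : 1 ≤ t)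
    (hk2 : 2 * (K : ℝ) / ε + 1 ≤ k) :
    μ.real {ω | ∀ i < k, ∀ b ∈ B ω, ¬ b ∣ 2 ^ i + t} ≤
      (((2 ^ k * p₀.factorial ^ K) ^ k : ℕ) : ℝ) ^ (ε / K) * (1 / (t : ℝ) ^ 2) := by
  classical
  have hpm : IsProbabilityMeasure μ := hI.isProbabilityMeasure
  set Pat : Set Ω := {ω | ∀ i < k, ∀ b ∈ B ω, ¬ b ∣ 2 ^ i + t} with hPat
  rcases Pat.eq_empty_or_nonempty with h0 | ⟨ω₀, hω₀⟩
  · rw [h0, measureReal_empty]
    positivity
  have hp : ∀ i < k, ∀ p : ℕ, p.Prime → p ≠ 2 → ¬ p ^ K ∣ 2 ^ i + t := by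
    intro i hi p hpp hp2 hd
    obtain ⟨b, hb, hbd⟩ := (hB ω₀).dvd ⟨hpp, hp2⟩ hd
    exact hω₀ i hi b hb hbd
  have hb := prod_bound hk ht hp
  set L : Finset ℕ := (Finset.range k).biUnion
    (fun i => (2 ^ i + t).primeFactors.filter (p₀ ≤ ·)) with hL
  have hLm : ∀ p ∈ L, p ∈ OP ∧ p₀ ≤ p ∧ ∃ i < k, p ∣ 2 ^ i + t := by
    intro p hp
    rw [hL, Finset.mem_biUnion] at hp
    obtain ⟨i, hi, hpi⟩ := hp
    rw [Finset.mem_filter, Nat.mem_primeFactors] at hpi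
    exact ⟨⟨hpi.1.1, by omega⟩, hpi.2, i, Finset.mem_range.mp hi, hpi.1.2.1⟩
  set D : ℕ := (2 ^ k * p₀.factorial ^ K) ^ k with hD
  have hD1 : (1 : ℝ) ≤ D := by
    have : 1 ≤ D := Nat.one_le_pow _ _ (Nat.mul_pos (by positivity)
      (Nat.pow_pos (Nat.factorial_pos _)))
    exact_mod_cast this
  set Pr : ℕ := ∏ p ∈ L, p with hPr
  have hPr1 : 1 ≤ Pr := Nat.succ_le_of_lt (Finset.prod_pos fun p hp => (hLm p hp).1.1.pos)
  have hPrR : (0 : ℝ) < Pr := by exact_mod_cast hPr1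
  have hsub : Pat ⊆ ⋂ p ∈ L.subtype (· ∈ OP), (E p)ᶜ := by
    intro ω hω
    simp only [Set.mem_iInter, Set.mem_compl_iff]
    intro p hp hpE
    rw [Finset.mem_subtype] at hp
    obtain ⟨hp1, _, i, hi, hd⟩ := hLm p hp
    exact hω i hi p (hBE ω p hp1 hpE) hd
  have h1 : μ.real Pat ≤ (Pr : ℝ) ^ (-ε) := by
    refine (measureReal_mono hsub).trans ?_
    rw [prob_inter_compl (s := fun p : OP => E p) hI]
    rw [Finset.prod_subtype_of_mem (fun p => μ.real ((E p)ᶜ)) (fun p hp => (hLm p hp).1)]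
    rw [hPr]
    push_cast
    rw [← Real.finsetProd_rpow L (fun p => (p : ℝ)) (fun p _ => by positivity)]
    exact Finset.prod_le_prod (fun p _ => measureReal_nonneg)
      fun p hp => hq p (hLm p hp).1 (hLm p hp).2.1
  refine h1.trans ?_
  have htR : (1 : ℝ) ≤ t := by exact_mod_cast ht
  have ht0 : (0 : ℝ) < t := by linarith
  have hKR : (0 : ℝ) < K := by exact_mod_cast hK
  have h2 : (t : ℝ) ^ (k - 1) / D ≤ (Pr : ℝ) ^ K := by
    rw [div_le_iff₀ (by linarith), mul_comm]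
    exact_mod_cast hb
  have h3 : ((Pr : ℝ) ^ K) ^ (-(ε / K)) ≤ ((t : ℝ) ^ (k - 1) / D) ^ (-(ε / K)) :=
    Real.rpow_le_rpow_of_nonpos (by positivity) h2 (by
      have : 0 < ε / K := by positivity
      linarith)
  have h4 : ((Pr : ℝ) ^ K) ^ (-(ε / K)) = (Pr : ℝ) ^ (-ε) := by
    rw [← Real.rpow_natCast, ← Real.rpow_mul hPrR.le]
    congr 1
    field_simp
  rw [h4] at h3
  refine h3.trans ?_
  rw [Real.rpow_neg (by positivity), Real.div_rpow (by positivity) (by linarith), inv_div]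
  rw [mul_one_div]
  refine div_le_div_of_nonneg_left (by positivity) (by positivity) ?_
  rw [← Real.rpow_natCast, ← Real.rpow_natCast, ← Real.rpow_mul ht0.le]
  refine Real.rpow_le_rpow_of_exponent_le htR ?_
  have hk1 : 1 ≤ k := by
    have : (1 : ℝ) ≤ k := by
      have : 0 ≤ 2 * (K : ℝ) / ε := by positivity
      linarith
    exact_mod_cast this
  rw [Nat.cast_sub hk1]
  push_cast
  have h5 : 2 * (K : ℝ) / ε ≤ k - 1 := by linarith
  calc (2 : ℝ) = (2 * (K : ℝ) / ε) * (ε / K) := by field_simp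
    _ ≤ ((k : ℝ) - 1) * (ε / K) := by gcongr

/-- If the exceptional probabilities are at most `p ^ (-ε)`, then almost surely the translation
property fails. -/
theorem ae_no_translate (hI : iIndepSet (fun p : OP => E p) μ) {ε : ℝ} (hε : 0 < ε) {K p₁ : ℕ}
    (hK : 1 ≤ K) (hB : ∀ ω, BPow K (B ω)) (hBE : ∀ ω, ∀ p ∈ OP, ω ∈ E p → p ∈ B ω)
    (hq : ∀ p ∈ OP, p₁ ≤ p → μ.real (E p)ᶜ ≤ (p : ℝ) ^ (-ε)) :
    ∀ᵐ ω ∂μ, ∃ n : ℕ, 1 ≤ n ∧ ¬ Tr n (B ω) := by
  have hpm : IsProbabilityMeasure μ := hI.isProbabilityMeasure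
  obtain ⟨k, hk⟩ := exists_nat_ge (2 * (K : ℝ) / ε + 1)
  have h2k : 0 < 2 ^ k := by positivity
  set p₀ : ℕ := max p₁ (2 ^ k + 3) with hp₀
  have hp1 : p₁ ≤ p₀ := le_max_left _ _
  have hp2 : 2 ^ k + 3 ≤ p₀ := le_max_right _ _
  set c : ℝ := (((2 ^ k * p₀.factorial ^ K) ^ k : ℕ) : ℝ) ^ (ε / K) with hc
  have hc0 : 0 ≤ c := by positivity
  set Pat : ℕ → Set Ω := fun t => {ω | ∀ i < k, ∀ b ∈ B ω, ¬ b ∣ 2 ^ i + (t + 1)} with hPat
  have hbound : ∀ t, μ.real (Pat t) ≤ c * (1 / ((t : ℝ) + 1) ^ 2) := by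
    intro t
    have := pat_bound hI hε hK hB hBE (k := k) (p₀ := p₀) (by omega) (by omega) (fun p hp hpp => hq p hp (hp1.trans hpp))
      (t := t + 1) (by omega) hk
    push_cast at this ⊢
    simpa [hc] using this
  have hsum : Summable (fun t : ℕ => c * (1 / ((t : ℝ) + 1) ^ 2)) := by
    refine Summable.mul_left c ?_
    have h1 : Summable (fun t : ℕ => 1 / (t : ℝ) ^ 2) :=
      Real.summable_one_div_nat_pow.mpr (by norm_num)
    have h2 := (summable_nat_add_iff 1).mpr h1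
    simpa using h2
  have hne : ∑' t, μ (Pat t) ≠ ⊤ := by
    refine ne_top_of_le_ne_top hsum.tsum_ofReal_ne_top (ENNReal.tsum_le_tsum fun t => ?_)
    rw [← ofReal_measureReal]
    exact ENNReal.ofReal_le_ofReal (hbound t)
  filter_upwards [ae_eventually_notMem hne] with ω hω
  obtain ⟨T, hT⟩ := eventually_atTop.mp hω
  by_contra hcon
  push Not at hcon
  have hper : ∀ t, ∃ a, 1 ≤ t → 1 ≤ a ∧
      ¬ ((∀ b ∈ B ω, ¬ b ∣ a) ↔ ∀ b ∈ B ω, ¬ b ∣ a + t) := by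
    intro t
    by_cases ht : 1 ≤ t
    · have := not_periodic (hB ω) ht
      push Not at this
      obtain ⟨a, ha, h⟩ := this
      refine ⟨a, fun _ => ⟨ha, ?_⟩⟩
      intro h'
      rcases h with h | h
      · obtain ⟨h1, b, hb, hd⟩ := h
        exact (h'.mp h1) b hb hd
      · obtain ⟨⟨b, hb, hd⟩, h2⟩ := h
        exact (h'.mpr h2) b hb hd
    · exact ⟨0, fun h => absurd h ht⟩
  choose α hα using hper
  set n : ℕ := 2 ^ k + ∑ t ∈ Finset.range (T + 1), α t with hn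
  obtain ⟨t, ht1, ht⟩ := hcon n (by omega)
  have htT : t ≤ T := by
    by_contra hlt
    push Not at hlt
    refine hT (t - 1) (by omega) ?_
    intro i hi b hb hd
    rw [Nat.sub_add_cancel ht1] at hd
    have h1 : 2 ^ i ≤ n := by
      have : 2 ^ i ≤ 2 ^ k := Nat.pow_le_pow_right (by norm_num) hi.le
      exact this.trans (Nat.le_add_right _ _)
    exact (ht (2 ^ i) Nat.one_le_two_pow h1).mp ((hB ω).two_pow i) b hb hd
  obtain ⟨ha1, ha2⟩ := hα t ht1
  refine ha2 (ht (α t) ha1 ?_)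
  have : α t ≤ ∑ t ∈ Finset.range (T + 1), α t :=
    Finset.single_le_sum (f := α) (fun _ _ => Nat.zero_le _) (Finset.mem_range.mpr (by omega))
  exact this.trans (Nat.le_add_left _ _)

end

end Pool.Agent.H40R
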