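import Mathlib

/-!
# Størmer's theorem on Pell equations and radicals of consecutive integers
-/

set_option autoImplicit false

namespace Pool.Agent.H40R

open Pell

/-- the odd powers of a solution -/
def vw (u : ℤ) : ℕ → ℤ × ℤ
  | 0 => (1, 1)
  | r + 1 => ((1 + 2 * u) * (vw u r).1 + 2 * u * (vw u r).2,
      2 * (1 + u) * (vw u r).1 + (1 + 2 * u) * (vw u r).2)

lemma pow_odd {d : ℤ} (b : Solution₁ d) (r : ℕ) :
    (b ^ (2 * r + 1)).x = b.x * (vw (d * b.y ^ 2) r).1 ∧
      (b ^ (2 * r + 1)).y = b.y * (vw (d * b.y ^ 2) r).2 := by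
  induction r with
  | zero => simp [vw]
  | succ r ih =>
    have e : b ^ (2 * (r + 1) + 1) = b ^ (2 * r + 1) * (b * b) := by
      rw [show 2 * (r + 1) + 1 = (2 * r + 1) + 1 + 1 by ring, pow_succ, pow_succ, mul_assoc]
    have hx := b.prop_x
    rw [e]
    simp only [Solution₁.x_mul, Solution₁.y_mul]
    rw [ih.1, ih.2]
    simp only [vw]
    constructor
    · linear_combination (b.x * (vw (d * b.y ^ 2) r).1) * hx
    · linear_combination (2 * b.y * (vw (d * b.y ^ 2) r).1 + b.y * (vw (d * b.y ^ 2) r).2) * hx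

lemma vw_mod (u : ℤ) (r : ℕ) : ∃ k l m : ℤ, (vw u r).1 = 1 + 2 * r * (r + 1) * u + k * u ^ 2 ∧
    3 * (vw u r).2 = 3 * (2 * r + 1) + 2 * r * (r + 1) * (2 * r + 1) * u + l * u ^ 2 ∧
    (vw u r).2 = (2 * r + 1) + m * u := by
  induction r with
  | zero => exact ⟨0, 0, 0, by simp [vw], by simp [vw], by simp [vw]⟩
  | succ r ih =>
    obtain ⟨k, l, m, h1, h2, h3⟩ := ih
    refine ⟨k + 4 * r * (r + 1) + 2 * k * u + 2 * m,
      6 * k + 12 * r * (r + 1) + 6 * k * u + l + 4 * r * (r + 1) * (2 * r + 1) + 2 * l * u,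
      m + 2 + 4 * r * (r + 1) + 2 * k * u + 4 * r * (r + 1) * u + 2 * k * u ^ 2 +
        2 * (2 * r + 1) + 2 * m * u, ?_, ?_, ?_⟩
    · simp only [vw]
      rw [h1, h3]
      push_cast
      ring
    · simp only [vw]
      rw [mul_add, show 3 * ((1 + 2 * u) * (vw u r).2) = (1 + 2 * u) * (3 * (vw u r).2) by ring,
        h2, h1]
      push_cast
      ring
    · simp only [vw]
      rw [h1, h3]
      push_cast
      ring

lemma vw_pos {u : ℤ} (hu : 0 < u) (r : ℕ) : 1 ≤ (vw u r).1 ∧ 2 * (r : ℤ) + 1 ≤ (vw u r).2 := by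
  induction r with
  | zero => simp [vw]
  | succ r ih =>
    simp only [vw]
    push_cast
    have h0 : (0 : ℤ) ≤ r := by positivity
    constructor <;> nlinarith [ih.1, ih.2]

lemma vw_gt {u : ℤ} (hu : 0 < u) {r : ℕ} (hr : 1 ≤ r) : 2 * (r : ℤ) + 1 < (vw u r).2 := by
  obtain ⟨s, rfl⟩ : ∃ s, r = s + 1 := ⟨r - 1, by omega⟩
  have := vw_pos hu s
  simp only [vw]
  push_cast
  have h0 : (0 : ℤ) ≤ s := by positivity
  nlinarith [this.1, this.2]

/-- all primes dividing `y` divide `d` -/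
def Rad (d y : ℤ) : Prop := ∀ p : ℕ, p.Prime → (p : ℤ) ∣ y → (p : ℤ) ∣ d

lemma exists_prime_dvd {z : ℤ} (hz : 1 < z) : ∃ p : ℕ, p.Prime ∧ (p : ℤ) ∣ z := by
  refine ⟨z.natAbs.minFac, Nat.minFac_prime (by omega), ?_⟩
  exact Int.natCast_dvd.mpr (Nat.minFac_dvd _)

lemma not_rad_pow {d : ℤ} {b : Solution₁ d} (hx : 1 < b.x) (hy : 0 < b.y) {q : ℕ} (hq : q.Prime) :
    ¬ Rad d (b ^ q).y := by
  intro hR
  have hd : 0 < d := Solution₁.d_pos_of_one_lt_x hx
  have hprop := b.prop
  rcases hq.eq_two_or_odd' with h2 | hodd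
  · subst h2
    obtain ⟨p, hp, hpx⟩ := exists_prime_dvd hx
    have h1 : (b ^ 2).y = b.x * (2 * b.y) := by
      rw [pow_two, Solution₁.y_mul]; ring
    have h3 : (p : ℤ) ∣ d := hR p hp (by rw [h1]; exact hpx.mul_right _)
    have h4 : (p : ℤ) ∣ 1 := by
      rw [← hprop]
      exact dvd_sub (dvd_pow hpx (by norm_num)) (h3.mul_right _)
    have := Int.le_of_dvd one_pos h4
    have := hp.two_le
    omega
  · obtain ⟨r, hr⟩ := hodd
    have hr1 : 1 ≤ r := by
      by_contra h0
      have : r = 0 := by omega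
      subst this
      exact hq.ne_one (by omega)
    set u : ℤ := d * b.y ^ 2 with hu
    have hu0 : 0 < u := by positivity
    set w : ℤ := (vw u r).2 with hw
    have hyw : (b ^ q).y = b.y * w := by rw [hr]; exact (pow_odd b r).2
    have hwgt : (q : ℤ) < w := by
      have := vw_gt hu0 hr1
      rw [hr]; push_cast; exact this
    obtain ⟨k, l, m, _, hw3, hw1⟩ := vw_mod u r
    rw [← hw] at hw3 hw1
    have hqr : (q : ℤ) = 2 * r + 1 := by rw [hr]; push_cast; ring
    rw [← hqr] at hw3 hw1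
    have hpd : ∀ p : ℕ, p.Prime → (p : ℤ) ∣ w → (p : ℤ) ∣ u := by
      intro p hp hpw
      exact (hR p hp (by rw [hyw]; exact hpw.mul_left _)).mul_right _
    have hpq : ∀ p : ℕ, p.Prime → (p : ℤ) ∣ w → p = q := by
      intro p hp hpw
      have h1 := hpd p hp hpw
      have h2 : (p : ℤ) ∣ q := by
        have : (q : ℤ) = w - m * u := by linarith
        rw [this]
        exact dvd_sub hpw (h1.mul_left _)
      exact (Nat.prime_dvd_prime_iff_eq hp hq).mp (Int.natCast_dvd_natCast.mp h2)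
    have hw0 : 0 < w := lt_trans (by exact_mod_cast hq.pos) hwgt
    have hpow : w.natAbs = q ^ w.natAbs.primeFactorsList.length :=
      Nat.eq_prime_pow_of_unique_prime_dvd (by omega) (fun {p} hp hpw =>
        hpq p hp (Int.natCast_dvd.mpr hpw))
    set e := w.natAbs.primeFactorsList.length with he
    have hwe : w = (q : ℤ) ^ e := by
      have : (w.natAbs : ℤ) = w := Int.natAbs_of_nonneg hw0.le
      rw [← this, hpow]; push_cast; rfl
    have he2 : 2 ≤ e := by
      by_contra hcon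
      have he1 : e ≤ 1 := by omega
      have : (q : ℤ) ^ e ≤ (q : ℤ) ^ 1 :=
        pow_le_pow_right₀ (by exact_mod_cast hq.one_le) he1
      rw [← hwe, pow_one] at this
      omega
    have hq2w : (q : ℤ) ^ 2 ∣ w := by rw [hwe]; exact pow_dvd_pow _ he2
    have hqw : (q : ℤ) ∣ w := (dvd_pow_self _ (by norm_num)).trans hq2w
    have hqu : (q : ℤ) ∣ u := hpd q hq hqw
    by_cases hq3 : q = 3
    · -- the case `q = 3`
      have hr' : r = 1 := by omega
      have hw' : w = (2 * b.x - 1) * (2 * b.x + 1) := by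
        rw [hw, hr']
        simp only [vw]
        have := b.prop_x
        rw [← hu] at this
        linear_combination -4 * this
      obtain ⟨p1, hp1, hd1⟩ := exists_prime_dvd (z := 2 * b.x - 1) (by omega)
      obtain ⟨p2, hp2, hd2⟩ := exists_prime_dvd (z := 2 * b.x + 1) (by omega)
      have e1 := hpq p1 hp1 (by rw [hw']; exact hd1.mul_right _)
      have e2 := hpq p2 hp2 (by rw [hw']; exact hd2.mul_left _)
      rw [e1, hq3] at hd1
      rw [e2, hq3] at hd2
      push_cast at hd1 hd2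
      omega
    · have hqu2 : (q : ℤ) ^ 2 ∣ u ^ 2 := pow_dvd_pow_of_dvd hqu 2
      have h1 : (q : ℤ) ^ 2 ∣ 3 * q := by
        have h2 : 3 * (q : ℤ) = 3 * w - 2 * r * (r + 1) * (q * u) - l * u ^ 2 := by linarith
        rw [h2]
        refine dvd_sub (dvd_sub (hq2w.mul_left _) ?_) (hqu2.mul_left _)
        refine Dvd.dvd.mul_left ?_ _
        rw [pow_two]
        exact mul_dvd_mul_left _ hqu
      rw [pow_two] at h1
      have h2 : (q : ℤ) ∣ 3 :=
        Int.dvd_of_mul_dvd_mul_right (by exact_mod_cast hq.pos.ne') h1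
      have h3 : q ∣ 3 := by exact_mod_cast h2
      exact hq3 ((Nat.prime_dvd_prime_iff_eq hq Nat.prime_three).mp h3)

/-- Størmer's theorem: at most one positive solution has all primes of `y` dividing `d`. -/
theorem stormer {d : ℤ} {a a' : Solution₁ d} (hx : 1 < a.x) (hy : 0 < a.y) (hR : Rad d a.y)
    (hx' : 1 < a'.x) (hy' : 0 < a'.y) (hR' : Rad d a'.y) : a = a' := by
  obtain ⟨f, hf⟩ := IsFundamental.exists_of_not_isSquare (Solution₁.d_pos_of_one_lt_x hx)
    (Solution₁.d_nonsquare_of_one_lt_x hx)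
  have key : ∀ a : Solution₁ d, 1 < a.x → 0 < a.y → Rad d a.y → a = f := by
    intro a hx hy hR
    obtain ⟨n, hn⟩ := hf.eq_pow_of_nonneg (by linarith : 0 < a.x) hy.le
    rcases Nat.lt_or_ge n 2 with h | h
    · interval_cases n
      · rw [pow_zero] at hn
        rw [hn, Solution₁.y_one] at hy
        exact absurd hy (lt_irrefl _)
      · rw [hn, pow_one]
    · exfalso
      obtain ⟨m, hm⟩ := n.minFac_dvd
      have hq := n.minFac_prime (by omega)
      have hm0 : m ≠ 0 := by
        rintro rfl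
        rw [mul_zero] at hm
        omega
      have hfx : 0 < f.x := hf.x_pos
      have hfy : 0 < f.y := hf.2.1
      have hbx : 0 < (f ^ m).x := Solution₁.x_pow_pos hfx m
      have hby : 0 < (f ^ m).y := by
        obtain ⟨k, rfl⟩ := Nat.exists_eq_succ_of_ne_zero hm0
        exact Solution₁.y_pow_succ_pos hfx hfy k
      have hbx1 : 1 < (f ^ m).x := by
        have h1 := (f ^ m).prop_x
        have hd : 0 < d := hf.d_pos
        have h2 : 0 < d * (f ^ m).y ^ 2 := by positivity
        nlinarith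
      refine not_rad_pow hbx1 hby hq ?_
      rw [← pow_mul, mul_comm m, ← hm, ← hn]
      exact hR
  rw [key a hx hy hR, key a' hx' hy' hR']

/-- the product of the primes dividing `n` -/
def rd (n : ℕ) : ℕ := ∏ p ∈ n.primeFactors, p

/-- the part of `n` with exponents `1` or `2` of the right parity -/
def core (n : ℕ) : ℕ :=
  ∏ p ∈ n.primeFactors, p ^ (n.factorization p - 2 * ((n.factorization p - 1) / 2))

/-- the square root of the rest -/
def yy (n : ℕ) : ℕ := ∏ p ∈ n.primeFactors, p ^ ((n.factorization p - 1) / 2)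

lemma core_mul {n : ℕ} (hn : n ≠ 0) : core n * yy n ^ 2 = n := by
  unfold core yy
  rw [← Finset.prod_pow, ← Finset.prod_mul_distrib]
  conv_rhs => rw [← Nat.prod_factorization_pow_eq_self hn]
  rw [Finsupp.prod, Nat.support_factorization]
  refine Finset.prod_congr rfl fun p hp => ?_
  rw [← pow_mul, ← pow_add]
  congr 1
  have : n.factorization p ≠ 0 := by
    rw [← Finsupp.mem_support_iff, Nat.support_factorization]
    exact hp
  omega

lemma core_le (n : ℕ) : core n ≤ rd n ^ 2 := by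
  unfold core rd
  rw [← Finset.prod_pow]
  refine Finset.prod_le_prod' fun p hp => ?_
  exact Nat.pow_le_pow_right (Nat.prime_of_mem_primeFactors hp).pos (by omega)

lemma core_pos (n : ℕ) : 0 < core n :=
  Finset.prod_pos fun p hp => Nat.pow_pos (Nat.prime_of_mem_primeFactors hp).pos

lemma yy_pos (n : ℕ) : 0 < yy n :=
  Finset.prod_pos fun p hp => Nat.pow_pos (Nat.prime_of_mem_primeFactors hp).pos

lemma rad_core (n : ℕ) : Rad (core n) (yy n) := by
  intro p hp hpy
  have h1 : p ∣ yy n := by exact_mod_cast hpy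
  unfold yy at h1
  obtain ⟨q, hq, hpq⟩ := (hp.prime.dvd_finsetProd_iff _).mp h1
  have hqp := Nat.prime_of_mem_primeFactors hq
  have h2 : p = q := (Nat.prime_dvd_prime_iff_eq hp hqp).mp (hp.dvd_of_dvd_pow hpq)
  subst h2
  have h3 : p ∣ core n := by
    unfold core
    refine (dvd_pow_self p ?_).trans (Finset.dvd_prod_of_mem _ hq)
    have : n.factorization p ≠ 0 := by
      rw [← Finsupp.mem_support_iff, Nat.support_factorization]
      exact hq
    omega
  exact_mod_cast h3

lemma core_prop {m : ℕ} (hm : 1 ≤ m) : ((2 * m + 1 : ℕ) : ℤ) ^ 2 -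
    (core (4 * (m * (m + 1))) : ℤ) * (yy (4 * (m * (m + 1))) : ℤ) ^ 2 = 1 := by
  have h : 4 * (m * (m + 1)) ≠ 0 := by positivity
  have h1 := core_mul h
  have h2 : (core (4 * (m * (m + 1))) : ℤ) * (yy (4 * (m * (m + 1))) : ℤ) ^ 2 =
      4 * (m * (m + 1)) := by exact_mod_cast h1
  rw [h2]
  push_cast
  ring

lemma core_inj {m m' : ℕ} (hm : 1 ≤ m) (hm' : 1 ≤ m')
    (h : core (4 * (m * (m + 1))) = core (4 * (m' * (m' + 1)))) : m = m' := by
  have h1 := core_prop hm
  have h2 := core_prop hm'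
  rw [← h] at h2
  have hR := rad_core (4 * (m * (m + 1)))
  have hR' := rad_core (4 * (m' * (m' + 1)))
  rw [← h] at hR'
  have key := stormer (a := Solution₁.mk _ _ h1) (a' := Solution₁.mk _ _ h2)
    (by rw [Solution₁.x_mk]; push_cast; omega)
    (by rw [Solution₁.y_mk]; exact_mod_cast yy_pos _) (by rw [Solution₁.y_mk]; exact hR)
    (by rw [Solution₁.x_mk]; push_cast; omega)
    (by rw [Solution₁.y_mk]; exact_mod_cast yy_pos _) (by rw [Solution₁.y_mk]; exact hR')
  have h3 := congrArg Solution₁.x key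
  rw [Solution₁.x_mk, Solution₁.x_mk] at h3
  push_cast at h3
  omega

lemma rd_four (m : ℕ) : rd (4 * (m * (m + 1))) = rd (m * (m + 1)) := by
  unfold rd
  congr 1
  ext p
  rw [Nat.mem_primeFactors, Nat.mem_primeFactors]
  constructor
  · rintro ⟨hp, hd, h0⟩
    refine ⟨hp, ?_, fun h => h0 (by rw [h])⟩
    rcases hp.dvd_mul.mp hd with h | h
    · have h2 : p = 2 := by
        have : p ∣ 2 ^ 2 := by simpa using h
        exact (Nat.prime_dvd_prime_iff_eq hp Nat.prime_two).mp (hp.dvd_of_dvd_pow this)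
      rw [h2]
      exact (Nat.even_mul_succ_self m).two_dvd
    · exact h
  · rintro ⟨hp, hd, h0⟩
    exact ⟨hp, hd.mul_left 4, by omega⟩

/-- The radicals of `(m + 1) (m + 2)` are large on average. -/
theorem summable_rd : Summable (fun m : ℕ => 1 / ((rd ((m + 1) * (m + 2)) : ℕ) : ℝ) ^ 4) := by
  set D : ℕ → ℕ := fun m => core (4 * ((m + 1) * (m + 1 + 1))) with hD
  have hinj : Function.Injective D := by
    intro m m' h
    have := core_inj (by omega) (by omega) h
    omega
  have h1 : Summable (fun n : ℕ => 1 / (n : ℝ) ^ 2) := Real.summable_one_div_nat_pow.mpr (by norm_num)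
  have h2 := h1.comp_injective hinj
  refine Summable.of_nonneg_of_le (fun m => by positivity) (fun m => ?_) h2
  simp only [Function.comp_apply]
  have h3 : D m ≤ rd ((m + 1) * (m + 2)) ^ 2 := by
    have := core_le (4 * ((m + 1) * (m + 1 + 1)))
    rwa [rd_four] at this
  have h4 : (0 : ℝ) < D m := by exact_mod_cast core_pos _
  have h5 : ((D m : ℕ) : ℝ) ≤ ((rd ((m + 1) * (m + 2)) : ℕ) : ℝ) ^ 2 := by exact_mod_cast h3
  refine one_div_le_one_div_of_le (by positivity) ?_
  calc ((D m : ℕ) : ℝ) ^ 2 ≤ (((rd ((m + 1) * (m + 2)) : ℕ) : ℝ) ^ 2) ^ 2 := by gcongr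
    _ = ((rd ((m + 1) * (m + 2)) : ℕ) : ℝ) ^ 4 := by ring

end Pool.Agent.H40R
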