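import Pool.Agent.H40R.Prob
import Pool.Agent.H40R.Stormer

/-!
# Few removed primes: no translation property
-/

set_option autoImplicit false

namespace Pool.Agent.H40R

open MeasureTheory ProbabilityTheory Filter Topology

lemma prod_le_sum_pow {J : ℕ} (hJ : 1 ≤ J) (x : ℕ → ℝ) (hx : ∀ j, 0 ≤ x j) :
    ∏ j ∈ Finset.range J, x j ≤ ∑ j ∈ Finset.range J, x j ^ J := by
  obtain ⟨i, hi, hmax⟩ := Finset.exists_max_image (Finset.range J) x ⟨0, Finset.mem_range.mpr (by omega)⟩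
  calc ∏ j ∈ Finset.range J, x j ≤ ∏ j ∈ Finset.range J, x i :=
        Finset.prod_le_prod (fun j _ => hx j) hmax
    _ = x i ^ J := by rw [Finset.prod_const, Finset.card_range]
    _ ≤ ∑ j ∈ Finset.range J, x j ^ J :=
        Finset.single_le_sum (f := fun j => x j ^ J) (fun j _ => pow_nonneg (hx j) J) hi

lemma rd_pos (n : ℕ) : 0 < rd n :=
  Finset.prod_pos fun _ hp => (Nat.prime_of_mem_primeFactors hp).pos

lemma rd_le (n p₀ : ℕ) :
    rd n ≤ p₀.factorial * ∏ p ∈ n.primeFactors.filter (p₀ ≤ ·), p := by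
  unfold rd
  rw [← Finset.prod_filter_mul_prod_filter_not n.primeFactors (fun p => p₀ ≤ p) (fun p => p),
    mul_comm]
  refine Nat.mul_le_mul_right _ ?_
  rw [← Pool.Agent.H14Trans.prod_Icc_fact p₀]
  refine Finset.prod_le_prod_of_subset_of_one_le' ?_ (fun p hp _ => (Finset.mem_Icc.mp hp).1)
  intro p hp
  rw [Finset.mem_filter] at hp
  rw [Finset.mem_Icc]
  exact ⟨(Nat.prime_of_mem_primeFactors hp.1).one_le, by omega⟩

/-- The primes larger than `y`. -/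
def UP (y : ℕ) : Set ℕ := {p | p.Prime ∧ y < p}

lemma small_mem {y : ℕ} {B : Set ℕ} (hB : ∀ m ∈ B, ∃ p ∈ UP y, ∃ k, 1 ≤ k ∧ m = p ^ k) {a : ℕ}
    (ha : 1 ≤ a) (hay : a ≤ y) : ∀ b ∈ B, ¬ b ∣ a := by
  intro b hb hd
  obtain ⟨p, hp, k, hk, rfl⟩ := hB b hb
  have h1 : p ∣ a := (dvd_pow_self p (by omega)).trans hd
  have h2 := Nat.le_of_dvd ha h1
  have h3 := hp.2
  omega

lemma not_periodic2 {y : ℕ} (hy : 1 ≤ y) {B : Set ℕ}
    (hB : ∀ m ∈ B, ∃ p ∈ UP y, ∃ k, 1 ≤ k ∧ m = p ^ k)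
    (hinf : ∀ N : ℕ, ∃ p ∈ UP y, N ≤ p ∧ p ∈ B) {t : ℕ} (ht : 1 ≤ t) :
    ¬ ∀ a, 1 ≤ a → ((∀ b ∈ B, ¬ b ∣ a) ↔ ∀ b ∈ B, ¬ b ∣ a + t) := by
  intro h
  have h1 : ∀ m : ℕ, ∀ b ∈ B, ¬ b ∣ t * m + 1 := by
    intro m
    induction m with
    | zero => simpa using small_mem hB le_rfl hy
    | succ m ih =>
      have := (h (t * m + 1) (by omega)).mp ih
      rwa [show t * m + 1 + t = t * (m + 1) + 1 by ring] at this
  obtain ⟨p, hp, hpt, hpB⟩ := hinf (t + 1)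
  have hc : t.Coprime p := by
    refine ((Nat.Prime.coprime_iff_not_dvd hp.1).mpr fun hd => ?_).symm
    have := Nat.le_of_dvd ht hd
    omega
  obtain ⟨m, _, hm⟩ := Pool.Agent.H14Trans.exists_res (a := 1) hp.1.pos hc
  exact h1 m p hpB hm

section
variable {Ω : Type*} [MeasurableSpace Ω] {μ : Measure Ω} {E : ℕ → Set Ω} {B : Ω → Set ℕ}

lemma pat_bound2 {y : ℕ} (hI : iIndepSet (fun p : UP y => E p) μ) {ε : ℝ} (hε : 0 < ε)
    {J p₀ : ℕ} (hJ : 4 / ε ≤ J) (hp0y : y < p₀) (hp0J : 2 * J ≤ p₀)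
    (hBE : ∀ ω, ∀ p ∈ UP y, ω ∈ E p → p ∈ B ω)
    (hq : ∀ p ∈ UP y, p₀ ≤ p → μ.real (E p)ᶜ ≤ (p : ℝ) ^ (-ε)) {t : ℕ} :
    μ.real {ω | ∀ a, 1 ≤ a → a ≤ 2 * J → ∀ b ∈ B ω, ¬ b ∣ a + t} ≤
      ((p₀.factorial : ℕ) : ℝ) ^ (ε * J) * ∑ j ∈ Finset.range J,
        1 / ((rd ((t + 2 * j + 1) * (t + 2 * j + 2)) : ℕ) : ℝ) ^ 4 := by
  classical
  have hpm : IsProbabilityMeasure μ := hI.isProbabilityMeasure
  have hJ0 : (0 : ℝ) < J := lt_of_lt_of_le (by positivity) hJ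
  have hJ1 : 1 ≤ J := by exact_mod_cast hJ0
  set N : ℕ → ℕ := fun j => (t + 2 * j + 1) * (t + 2 * j + 2) with hN
  set Lj : ℕ → Finset ℕ := fun j => (N j).primeFactors.filter (p₀ ≤ ·) with hLj
  set L : Finset ℕ := (Finset.range J).biUnion Lj with hL
  set Pat : Set Ω := {ω | ∀ a, 1 ≤ a → a ≤ 2 * J → ∀ b ∈ B ω, ¬ b ∣ a + t} with hPat
  have hLjm : ∀ j, ∀ p ∈ Lj j, p.Prime ∧ p₀ ≤ p ∧
      (p ∣ (2 * j + 1) + t ∨ p ∣ (2 * j + 2) + t) := by
    intro j p hp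
    rw [hLj, Finset.mem_filter, Nat.mem_primeFactors] at hp
    refine ⟨hp.1.1, hp.2, ?_⟩
    rcases hp.1.1.dvd_mul.mp hp.1.2.1 with h | h
    · left; rw [show 2 * j + 1 + t = t + 2 * j + 1 by ring]; exact h
    · right; rw [show 2 * j + 2 + t = t + 2 * j + 2 by ring]; exact h
  have hLm : ∀ p ∈ L, p ∈ UP y ∧ p₀ ≤ p ∧ ∃ a, 1 ≤ a ∧ a ≤ 2 * J ∧ p ∣ a + t := by
    intro p hp
    rw [hL, Finset.mem_biUnion] at hp
    obtain ⟨j, hj, hpj⟩ := hp
    rw [Finset.mem_range] at hj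
    obtain ⟨h1, h2, h3⟩ := hLjm j p hpj
    refine ⟨⟨h1, by omega⟩, h2, ?_⟩
    rcases h3 with h | h
    · exact ⟨2 * j + 1, by omega, by omega, h⟩
    · exact ⟨2 * j + 2, by omega, by omega, h⟩
  have hdisj : ((Finset.range J : Finset ℕ) : Set ℕ).PairwiseDisjoint Lj := by
    have key : ∀ i j, i < j → j < J → Disjoint (Lj i) (Lj j) := by
      intro i j hij hj
      rw [Finset.disjoint_left]
      intro p hp1 hp2
      obtain ⟨hpp, hp0, h1⟩ := hLjm i p hp1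
      obtain ⟨_, _, h2⟩ := hLjm j p hp2
      have aux : ∀ a a', 1 ≤ a → a < a' → a' ≤ 2 * J → p ∣ a + t → p ∣ a' + t → False := by
        intro a a' ha haa ha' hd hd'
        have h3 : p ∣ (a' + t) - (a + t) := Nat.dvd_sub hd' hd
        have h4 := Nat.le_of_dvd (by omega) h3
        omega
      rcases h1 with h1 | h1 <;> rcases h2 with h2 | h2
      · exact aux _ _ (by omega) (by omega) (by omega) h1 h2
      · exact aux _ _ (by omega) (by omega) (by omega) h1 h2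
      · exact aux _ _ (by omega) (by omega) (by omega) h1 h2
      · exact aux _ _ (by omega) (by omega) (by omega) h1 h2
    intro i hi j hj hij
    rw [Finset.mem_coe, Finset.mem_range] at hi hj
    rcases Nat.lt_or_gt_of_ne hij with h | h
    · exact key i j h hj
    · exact (key j i h hi).symm
  have hsub : Pat ⊆ ⋂ p ∈ L.subtype (· ∈ UP y), (E p)ᶜ := by
    intro ω hω
    simp only [Set.mem_iInter, Set.mem_compl_iff]
    intro p hp hpE
    rw [Finset.mem_subtype] at hp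
    obtain ⟨hp1, _, a, ha1, ha2, hd⟩ := hLm p hp
    exact hω a ha1 ha2 p (hBE ω p hp1 hpE) hd
  have h1 : μ.real Pat ≤ ∏ j ∈ Finset.range J, ((∏ p ∈ Lj j, p : ℕ) : ℝ) ^ (-ε) := by
    refine (measureReal_mono hsub).trans ?_
    rw [prob_inter_compl (s := fun p : UP y => E p) hI]
    rw [Finset.prod_subtype_of_mem (p := (· ∈ UP y)) (fun p => μ.real ((E p)ᶜ))
      (fun p hp => (hLm p hp).1)]
    have h2 : ∏ j ∈ Finset.range J, ((∏ p ∈ Lj j, p : ℕ) : ℝ) ^ (-ε) =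
        ∏ p ∈ L, (p : ℝ) ^ (-ε) := by
      rw [hL, Finset.prod_biUnion hdisj]
      refine Finset.prod_congr rfl fun j _ => ?_
      push_cast
      rw [← Real.finsetProd_rpow (Lj j) (fun p => (p : ℝ)) (fun p _ => by positivity)]
    rw [h2]
    exact Finset.prod_le_prod (fun p _ => measureReal_nonneg)
      fun p hp => hq p (hLm p hp).1 (hLm p hp).2.1
  have hf1 : (1 : ℝ) ≤ ((p₀.factorial : ℕ) : ℝ) := by exact_mod_cast Nat.factorial_pos p₀
  set f : ℝ := ((p₀.factorial : ℕ) : ℝ) with hf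
  have hf0 : 0 < f := by linarith
  have h2 : ∀ j, ((∏ p ∈ Lj j, p : ℕ) : ℝ) ^ (-ε) ≤ (((rd (N j) : ℕ) : ℝ) / f) ^ (-ε) := by
    intro j
    have h3 := rd_le (N j) p₀
    have h4 : ((rd (N j) : ℕ) : ℝ) ≤ f * ((∏ p ∈ Lj j, p : ℕ) : ℝ) := by
      rw [hf]; exact_mod_cast h3
    have h5 : (0 : ℝ) < ((rd (N j) : ℕ) : ℝ) := by exact_mod_cast rd_pos _
    refine Real.rpow_le_rpow_of_nonpos (by positivity) ?_ (by linarith)
    rw [div_le_iff₀ hf0, mul_comm]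
    exact h4
  refine h1.trans ?_
  calc ∏ j ∈ Finset.range J, ((∏ p ∈ Lj j, p : ℕ) : ℝ) ^ (-ε)
      ≤ ∏ j ∈ Finset.range J, (((rd (N j) : ℕ) : ℝ) / f) ^ (-ε) :=
        Finset.prod_le_prod (fun j _ => by positivity) fun j _ => h2 j
    _ ≤ ∑ j ∈ Finset.range J, ((((rd (N j) : ℕ) : ℝ) / f) ^ (-ε)) ^ J :=
        prod_le_sum_pow hJ1 _ fun j => by positivity
    _ ≤ ∑ j ∈ Finset.range J, f ^ (ε * J) * (1 / ((rd (N j) : ℕ) : ℝ) ^ 4) := by
        refine Finset.sum_le_sum fun j _ => ?_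
        have h5 : (1 : ℝ) ≤ ((rd (N j) : ℕ) : ℝ) := by exact_mod_cast rd_pos _
        have h50 : (0 : ℝ) < ((rd (N j) : ℕ) : ℝ) := by linarith
        rw [← Real.rpow_natCast (((rd (N j) : ℕ) / f) ^ (-ε)) J, ← Real.rpow_mul (by positivity),
          Real.div_rpow h50.le hf0.le, neg_mul, Real.rpow_neg h50.le, Real.rpow_neg hf0.le,
          inv_div_inv, div_eq_mul_one_div]
        refine mul_le_mul_of_nonneg_left ?_ (by positivity)
        refine one_div_le_one_div_of_le (by positivity) ?_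
        rw [← Real.rpow_natCast]
        refine Real.rpow_le_rpow_of_exponent_le h5 ?_
        rw [div_le_iff₀ hε] at hJ
        push_cast
        linarith
    _ = f ^ (ε * J) * ∑ j ∈ Finset.range J,
        1 / ((rd ((t + 2 * j + 1) * (t + 2 * j + 2)) : ℕ) : ℝ) ^ 4 := by
        rw [Finset.mul_sum]

/-- If the primes `p > y` are removed with probability at most `p ^ (-ε)`, `y ≥ 2 ⌈4/ε⌉`, then
almost surely the translation property fails. -/
theorem ae_no_translate_up {y : ℕ} (hI : iIndepSet (fun p : UP y => E p) μ) {ε : ℝ} (hε : 0 < ε)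
    {J p₁ : ℕ} (hJ : 4 / ε ≤ J) (hJy : 2 * J ≤ y)
    (hB : ∀ ω, ∀ m ∈ B ω, ∃ p ∈ UP y, ∃ k, 1 ≤ k ∧ m = p ^ k)
    (hBE : ∀ ω, ∀ p ∈ UP y, ω ∈ E p → p ∈ B ω)
    (hq : ∀ p ∈ UP y, p₁ ≤ p → μ.real (E p)ᶜ ≤ (p : ℝ) ^ (-ε)) :
    ∀ᵐ ω ∂μ, ∃ n : ℕ, 1 ≤ n ∧ ¬ Tr n (B ω) := by
  have hpm : IsProbabilityMeasure μ := hI.isProbabilityMeasure
  have hJ0 : (0 : ℝ) < J := lt_of_lt_of_le (by positivity) hJ
  have hJ1 : 1 ≤ J := by exact_mod_cast hJ0
  -- infinitely many primes are kept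
  have hinf : ∀ᵐ ω ∂μ, ∀ N : ℕ, ∃ p ∈ UP y, N ≤ p ∧ ω ∈ E p := by
    rw [ae_all_iff]
    intro N
    set Bad : Set Ω := {ω | ¬ ∃ p ∈ UP y, N ≤ p ∧ ω ∈ E p} with hBad
    have hfreq : ∃ᶠ v : ℕ in atTop, μ.real Bad ≤ (v : ℝ) ^ (-ε) := by
      rw [frequently_atTop]
      intro x₀
      obtain ⟨p, hp, hpp⟩ := Nat.exists_infinite_primes (x₀ + N + y + 1 + p₁)
      have hpU : p ∈ UP y := ⟨hpp, by omega⟩
      refine ⟨p, by omega, (measureReal_mono ?_).trans (hq p hpU (by omega))⟩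
      intro ω hω hE
      exact hω ⟨p, hpU, by omega, hE⟩
    have hlim : Tendsto (fun v : ℕ => (v : ℝ) ^ (-ε)) atTop (𝓝 0) :=
      (tendsto_rpow_neg_atTop hε).comp tendsto_natCast_atTop_atTop
    have h0 : μ.real Bad ≤ 0 := ge_of_tendsto_of_frequently hlim hfreq
    have h1 : μ Bad = 0 := by
      have h3 : μ.real Bad = 0 := le_antisymm h0 measureReal_nonneg
      rwa [measureReal_eq_zero_iff] at h3
    filter_upwards [measure_eq_zero_iff_ae_notMem.mp h1] with ω hω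
    by_contra hcon
    exact hω hcon
  set p₀ : ℕ := max p₁ (y + 1) with hp₀
  have hp1 : p₁ ≤ p₀ := le_max_left _ _
  have hp2 : y + 1 ≤ p₀ := le_max_right _ _
  set c : ℝ := ((p₀.factorial : ℕ) : ℝ) ^ (ε * J) with hc
  set Pat : ℕ → Set Ω := fun t => {ω | ∀ a, 1 ≤ a → a ≤ 2 * J → ∀ b ∈ B ω, ¬ b ∣ a + t} with hPat
  have hsum : Summable (fun t : ℕ => c * ∑ j ∈ Finset.range J,
      1 / ((rd ((t + 2 * j + 1) * (t + 2 * j + 2)) : ℕ) : ℝ) ^ 4) := by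
    refine Summable.mul_left c (summable_sum fun j _ => ?_)
    have := (summable_nat_add_iff (2 * j)).mpr summable_rd
    exact this
  have hne : ∑' t, μ (Pat t) ≠ ⊤ := by
    refine ne_top_of_le_ne_top hsum.tsum_ofReal_ne_top (ENNReal.tsum_le_tsum fun t => ?_)
    rw [← ofReal_measureReal]
    exact ENNReal.ofReal_le_ofReal (pat_bound2 hI hε hJ (by omega) (by omega) hBE
      (fun p hp hpp => hq p hp (hp1.trans hpp)))
  filter_upwards [ae_eventually_notMem hne, hinf] with ω hω hωinf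
  obtain ⟨T, hT⟩ := eventually_atTop.mp hω
  by_contra hcon
  push Not at hcon
  have hinfB : ∀ N : ℕ, ∃ p ∈ UP y, N ≤ p ∧ p ∈ B ω := by
    intro N
    obtain ⟨p, hp, hNp, hpE⟩ := hωinf N
    exact ⟨p, hp, hNp, hBE ω p hp hpE⟩
  have hper : ∀ t, ∃ a, 1 ≤ t → 1 ≤ a ∧
      ¬ ((∀ b ∈ B ω, ¬ b ∣ a) ↔ ∀ b ∈ B ω, ¬ b ∣ a + t) := by
    intro t
    by_cases ht : 1 ≤ t
    · have := not_periodic2 (by omega) (hB ω) hinfB ht
      rw [not_forall] at this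
      obtain ⟨a, ha⟩ := this
      rw [Classical.not_imp] at ha
      exact ⟨a, fun _ => ha⟩
    · exact ⟨0, fun h => absurd h ht⟩
  choose α hα using hper
  set n : ℕ := 2 * J + ∑ t ∈ Finset.range (T + 1), α t with hn
  obtain ⟨t, ht1, ht⟩ := hcon n (by omega)
  have htT : t ≤ T := by
    by_contra hlt
    push Not at hlt
    refine hT t hlt.le ?_
    intro a ha1 ha2 b hb
    exact (ht a ha1 (by omega)).mp (small_mem (hB ω) ha1 (by omega)) b hb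
  obtain ⟨ha1, ha2⟩ := hα t ht1
  refine ha2 (ht (α t) ha1 ?_)
  have : α t ≤ ∑ t ∈ Finset.range (T + 1), α t :=
    Finset.single_le_sum (f := α) (fun _ _ => Nat.zero_le _) (Finset.mem_range.mpr (by omega))
  exact this.trans (Nat.le_add_left _ _)

end

end Pool.Agent.H40R
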