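import Pool.Agent.H40R.Sieve

/-!
# Random subsets of a pairwise coprime set
-/

set_option autoImplicit false

namespace Pool.Agent.H40R

open MeasureTheory ProbabilityTheory Filter Topology

section indep
variable {Ω ι κ : Type*} [MeasurableSpace Ω] {μ : Measure Ω}

lemma prob_inter_compl {s : ι → Set Ω} (hs : iIndepSet s μ) (Q : Finset ι) :
    μ.real (⋂ i ∈ Q, (s i)ᶜ) = ∏ i ∈ Q, μ.real ((s i)ᶜ) := by
  rw [iIndepSet_iff] at hs
  have h := hs Q (f := fun i => (s i)ᶜ)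
    (fun i _ => (MeasurableSpace.measurableSet_generateFrom (Set.mem_singleton _)).compl)
  simp only [measureReal_def]
  rw [h, ENNReal.toReal_prod]

lemma prob_inter_disjoint {s : ι → Set Ω} (hsm : ∀ i, MeasurableSet (s i))
    (hs : iIndepSet s μ) (Q : κ → Finset ι) (S : Finset κ)
    (hd : (S : Set κ).PairwiseDisjoint Q) :
    μ.real (⋂ k ∈ S, (⋂ i ∈ Q k, (s i)ᶜ)ᶜ) = ∏ k ∈ S, μ.real ((⋂ i ∈ Q k, (s i)ᶜ)ᶜ) := by
  classical
  have hp : IsProbabilityMeasure μ := hs.isProbabilityMeasure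
  induction S using Finset.induction_on with
  | empty => simp
  | insert k S hk ih =>
    have hd' : (S : Set κ).PairwiseDisjoint Q := hd.subset (by simp)
    rw [Finset.set_biInter_insert, Finset.prod_insert hk, ← ih hd']
    have hI := hs.indep_generateFrom_of_disjoint hsm (Q k : Set ι) (⋃ j ∈ S, (Q j : Set ι)) (by
      rw [Set.disjoint_iUnion₂_right]
      intro j hj
      have h1 := hd (by simp) (by simp [hj]) (by rintro rfl; exact hk hj : k ≠ j)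
      exact Finset.disjoint_coe.mpr h1)
    have h2 := (Indep_iff _ _ _).mp hI ((⋂ i ∈ Q k, (s i)ᶜ)ᶜ) (⋂ j ∈ S, (⋂ i ∈ Q j, (s i)ᶜ)ᶜ)
      (MeasurableSet.compl (MeasurableSet.biInter (Finset.countable_toSet _) fun i hi =>
        MeasurableSet.compl (MeasurableSpace.measurableSet_generateFrom ⟨i, hi, rfl⟩)))
      (MeasurableSet.biInter (Finset.countable_toSet _) fun j hj =>
        MeasurableSet.compl (MeasurableSet.biInter (Finset.countable_toSet _) fun i hi =>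
          MeasurableSet.compl (MeasurableSpace.measurableSet_generateFrom
            ⟨i, Set.mem_biUnion hj hi, rfl⟩)))
    simp only [measureReal_def]
    rw [h2, ENNReal.toReal_mul]

end indep

section main
variable {Ω : Type*} [MeasurableSpace Ω] {μ : Measure Ω} {BB : Set ℕ} {E : ℕ → Set Ω}

/-- the condition that a random subset has an `n`-translate -/
def Tr (n : ℕ) (B : Set ℕ) : Prop :=
  ∃ t ≥ 1, ∀ a, 1 ≤ a → a ≤ n → ((∀ b ∈ B, ¬ b ∣ a) ↔ ∀ b ∈ B, ¬ b ∣ a + t)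

/-- the bound at one scale -/
lemma one_scale (hE : ∀ b ∈ BB, MeasurableSet (E b)) (hI : iIndepSet (fun b : BB => E b) μ)
    {r C v : ℕ} {ε : ℝ} (hε : 0 < ε) (hεC : (C : ℝ) * ε * r ≤ 1 / 2) (hv : 1 ≤ v)
    (hlow : ∀ b ∈ BB, v < b → b ≤ v ^ C → (b : ℝ) ^ (-ε) ≤ μ.real (E b)ᶜ)
    {S : Finset ℕ} {Q : ℕ → Finset ℕ} (hS : v ≤ S.card) (hd : (S : Set ℕ).PairwiseDisjoint Q)
    (hQ : ∀ s ∈ S, (Q s).card ≤ r ∧ ∀ b ∈ Q s, b ∈ BB ∧ v < b ∧ b ≤ v ^ C) :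
    μ.real {ω | ∀ s ∈ S, ∃ b ∈ Q s, ω ∈ E b} ≤ Real.exp (-√v) := by
  classical
  have hp : IsProbabilityMeasure μ := hI.isProbabilityMeasure
  have hv1 : (1 : ℝ) ≤ v := by exact_mod_cast hv
  have hv0 : (0 : ℝ) < v := by linarith
  set Q' : ℕ → Finset BB := fun s => (Q s).subtype (· ∈ BB) with hQ'
  have hd' : (S : Set ℕ).PairwiseDisjoint Q' := by
    intro s hs t ht hst
    have h1 := hd hs ht hst
    simp only [Function.onFun] at h1 ⊢
    rw [Finset.disjoint_left] at h1 ⊢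
    intro b hb hb'
    rw [hQ', Finset.mem_subtype] at hb hb'
    exact h1 hb hb'
  have hset : {ω | ∀ s ∈ S, ∃ b ∈ Q s, ω ∈ E b} ⊆ ⋂ s ∈ S, (⋂ i ∈ Q' s, (E i)ᶜ)ᶜ := by
    intro ω hω
    simp only [Set.mem_iInter, Set.mem_compl_iff, not_forall, not_not]
    intro s hs
    obtain ⟨b, hb, hbE⟩ := hω s hs
    exact ⟨⟨b, ((hQ s hs).2 b hb).1⟩, by rw [hQ', Finset.mem_subtype]; exact hb, hbE⟩
  refine (measureReal_mono hset).trans ?_
  rw [prob_inter_disjoint (s := fun b : BB => E b) (fun b => hE b b.2) hI Q' S hd']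
  have hWlow : ∀ s ∈ S, (v : ℝ) ^ (-(1 / 2 : ℝ)) ≤ μ.real (⋂ i ∈ Q' s, (E i)ᶜ) := by
    intro s hs
    rw [prob_inter_compl (s := fun b : BB => E b) hI (Q' s)]
    have h1 : ∏ i ∈ Q' s, μ.real ((E i)ᶜ) = ∏ b ∈ Q s, μ.real ((E b)ᶜ) :=
      Finset.prod_subtype_of_mem (fun b => μ.real ((E b)ᶜ)) (fun b hb => ((hQ s hs).2 b hb).1)
    rw [h1]
    have h2 : ∏ b ∈ Q s, (v : ℝ) ^ (-(C * ε)) ≤ ∏ b ∈ Q s, μ.real ((E b)ᶜ) := by
      refine Finset.prod_le_prod (fun b _ => by positivity) fun b hb => ?_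
      obtain ⟨hb1, hb2, hb3⟩ := (hQ s hs).2 b hb
      refine le_trans ?_ (hlow b hb1 hb2 hb3)
      have hb0 : (0 : ℝ) < b := by exact_mod_cast (by omega : 0 < b)
      have h3 : (b : ℝ) ≤ (v : ℝ) ^ (C : ℝ) := by
        rw [Real.rpow_natCast]
        exact_mod_cast hb3
      rw [← mul_neg, Real.rpow_mul hv0.le]
      exact Real.rpow_le_rpow_of_nonpos hb0 h3 (by linarith)
    refine le_trans ?_ h2
    rw [Finset.prod_const, ← Real.rpow_natCast, ← Real.rpow_mul hv0.le]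
    refine Real.rpow_le_rpow_of_exponent_le hv1 ?_
    have h4 : ((Q s).card : ℝ) ≤ r := by exact_mod_cast (hQ s hs).1
    have h5 : 0 ≤ (C : ℝ) * ε := by positivity
    nlinarith
  calc ∏ s ∈ S, μ.real ((⋂ i ∈ Q' s, (E i)ᶜ)ᶜ)
      ≤ ∏ s ∈ S, Real.exp (-(v : ℝ) ^ (-(1 / 2 : ℝ))) := by
        refine Finset.prod_le_prod (fun s _ => measureReal_nonneg) fun s hs => ?_
        have hm : MeasurableSet (⋂ i ∈ Q' s, (E i)ᶜ) :=
          MeasurableSet.biInter (Finset.countable_toSet _) fun i _ => (hE i i.2).compl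
        rw [probReal_compl_eq_one_sub hm]
        have h1 := hWlow s hs
        have h2 := Real.add_one_le_exp (-(v : ℝ) ^ (-(1 / 2 : ℝ)))
        linarith
    _ = Real.exp (-(S.card * (v : ℝ) ^ (-(1 / 2 : ℝ)))) := by
        rw [Finset.prod_const, ← Real.exp_nat_mul]; congr 1; ring
    _ ≤ Real.exp (-√v) := by
        refine Real.exp_le_exp.mpr (neg_le_neg ?_)
        have h1 : (v : ℝ) ≤ S.card := by exact_mod_cast hS
        have h2 : √(v : ℝ) = v * (v : ℝ) ^ (-(1 / 2 : ℝ)) := by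
          rw [Real.sqrt_eq_rpow]
          nth_rewrite 2 [← Real.rpow_one (v : ℝ)]
          rw [← Real.rpow_add hv0]
          norm_num
        rw [h2]
        gcongr

/-- The random theorem at one scale. -/
theorem prob_translate (n : ℕ) (hn : 1 ≤ n) : ∃ ε : ℝ, 0 < ε ∧ ∃ C X₀ : ℕ,
    ∀ {Ω : Type*} [MeasurableSpace Ω] {μ : Measure Ω} {BB : Set ℕ} {E : ℕ → Set Ω}
      {B : Ω → Set ℕ},
    (∀ b ∈ BB, 1 ≤ b) → (∀ b ∈ BB, ∀ c ∈ BB, b ≠ c → b.Coprime c) →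
    (∀ b ∈ BB, MeasurableSet (E b)) → iIndepSet (fun b : BB => E b) μ →
    (∀ ω, ∀ m ∈ B ω, ∃ b ∈ BB, ∃ k, 1 ≤ k ∧ m = b ^ k) → (∀ ω, ∀ b ∈ BB, b ∈ B ω → ω ∈ E b) →
    ∀ x : ℕ, X₀ ≤ x → (∀ b ∈ BB, x < b → b ≤ x ^ C → (b : ℝ) ^ (-ε) ≤ μ.real (E b)ᶜ) →
      μ.real {ω | ¬ Tr n (B ω)} ≤ Real.exp (-√x) := by
  obtain ⟨r, C, X₀, hF⟩ := family n hn
  set ε : ℝ := 1 / (2 * (C * r + 1)) with hε
  have hε0 : 0 < ε := by positivity
  have hεC : (C : ℝ) * ε * r ≤ 1 / 2 := by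
    rw [hε]
    rw [show (C : ℝ) * (1 / (2 * (C * r + 1))) * r = (C * r) / (2 * (C * r + 1)) by ring]
    rw [div_le_div_iff₀ (by positivity) (by norm_num)]
    nlinarith
  refine ⟨ε, hε0, C, max X₀ 1, ?_⟩
  intro Ω _ μ BB E B h1 hc hE hI hB1 hB2 x hx hlow
  have hp : IsProbabilityMeasure μ := hI.isProbabilityMeasure
  obtain ⟨S, Q, hS, hd, hQ⟩ := hF BB h1 hc x ((le_max_left _ _).trans hx)
  have hsub : {ω | ¬ Tr n (B ω)} ⊆ {ω | ∀ s ∈ S, ∃ b ∈ Q s, ω ∈ E b} := by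
    intro ω hω s hs
    by_contra hcon
    push Not at hcon
    refine hω ((hQ s hs).2.2 (B ω) (hB1 ω) ?_)
    intro b hb hbQ
    exact hcon b hbQ (hB2 ω b ((hQ s hs).2.1 b hbQ).1 hb)
  refine (measureReal_mono hsub).trans ?_
  exact one_scale hE hI hε0 hεC ((le_max_right _ _).trans hx) hlow hS hd
    (fun s hs => ⟨(hQ s hs).1, (hQ s hs).2.1⟩)

/-- Almost every random set of powers has translates for all `n`. -/
theorem ae_translate {B : Ω → Set ℕ} (h1 : ∀ b ∈ BB, 1 ≤ b)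
    (hc : ∀ b ∈ BB, ∀ c ∈ BB, b ≠ c → b.Coprime c)
    (hE : ∀ b ∈ BB, MeasurableSet (E b)) (hI : iIndepSet (fun b : BB => E b) μ)
    (hB1 : ∀ ω, ∀ m ∈ B ω, ∃ b ∈ BB, ∃ k, 1 ≤ k ∧ m = b ^ k)
    (hB2 : ∀ ω, ∀ b ∈ BB, b ∈ B ω → ω ∈ E b)
    (hlow : ∀ ε : ℝ, 0 < ε → ∀ C x₀ : ℕ, ∃ x ≥ x₀, ∀ b ∈ BB, x < b → b ≤ x ^ C →
      (b : ℝ) ^ (-ε) ≤ μ.real (E b)ᶜ) :
    ∀ᵐ ω ∂μ, ∀ n : ℕ, 1 ≤ n → Tr n (B ω) := by
  have hp : IsProbabilityMeasure μ := hI.isProbabilityMeasure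
  rw [ae_all_iff]
  intro n
  by_cases hn : 1 ≤ n
  swap
  · exact Eventually.of_forall fun ω h => absurd h hn
  obtain ⟨ε, hε0, C, X₀, hF⟩ := prob_translate n hn
  set Bad : Set Ω := {ω | ¬ Tr n (B ω)} with hBad
  have hfreq : ∃ᶠ v : ℕ in atTop, μ.real Bad ≤ Real.exp (-√v) := by
    rw [frequently_atTop]
    intro x₀
    obtain ⟨x, hx, hxE⟩ := hlow ε hε0 C (max x₀ X₀)
    exact ⟨x, (le_max_left _ _).trans hx,
      hF h1 hc hE hI hB1 hB2 x ((le_max_right _ _).trans hx) hxE⟩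
  have hlim : Tendsto (fun v : ℕ => Real.exp (-√(v : ℝ))) atTop (𝓝 0) :=
    Real.tendsto_exp_neg_atTop_nhds_zero.comp
      (Real.tendsto_sqrt_atTop.comp tendsto_natCast_atTop_atTop)
  have h0 : μ.real Bad ≤ 0 := ge_of_tendsto_of_frequently hlim hfreq
  have h1 : μ Bad = 0 := by
    have h3 : μ.real Bad = 0 := le_antisymm h0 measureReal_nonneg
    rwa [measureReal_eq_zero_iff] at h3
  have h4 : ∀ᵐ ω ∂μ, ω ∉ Bad := measure_eq_zero_iff_ae_notMem.mp h1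
  filter_upwards [h4] with ω hω _
  by_contra hcon
  exact hω hcon

end main

end Pool.Agent.H40R
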