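import Pool.Agent.H40R.Sparse

/-!
# Sets of primes of every relative density
-/

set_option autoImplicit false

namespace Pool.Agent.H40R

open Filter Topology Pool.Agent.H14Trans

lemma cauchy_prime : CauchySeq (fun m : ℕ => ∑ p ∈ (Finset.range m).filter Nat.Prime, (1 : ℝ) / p -
    Real.log (Real.log m)) := by
  rw [Metric.cauchySeq_iff']
  intro ε hε
  have hlim : Tendsto (fun n : ℕ => 9 / Real.log (n : ℝ)) atTop (𝓝 0) :=
    (Real.tendsto_log_atTop.comp tendsto_natCast_atTop_atTop).const_div_atTop 9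
  obtain ⟨N, hN⟩ := eventually_atTop.mp ((hlim.eventually (gt_mem_nhds hε)).and
    (eventually_ge_atTop 2))
  refine ⟨N, fun n hn => ?_⟩
  obtain ⟨h1, h2⟩ := hN N le_rfl
  have h3 := Pool.Agent.Sv.abs_sum_inv_sub_le h2 hn
  have h4 : ∑ p ∈ (Finset.range n).filter Nat.Prime, (1 : ℝ) / p =
      ∑ p ∈ (Finset.range N).filter Nat.Prime, (1 : ℝ) / p +
        ∑ p ∈ (Finset.Ico N n).filter Nat.Prime, (1 : ℝ) / p := by
    rw [← Finset.sum_union]
    · refine Finset.sum_congr ?_ fun _ _ => rfl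
      ext b
      simp only [Finset.mem_filter, Finset.mem_union, Finset.mem_range, Finset.mem_Ico]
      constructor
      · rintro ⟨h5, h6⟩
        by_cases h7 : b < N
        · exact Or.inl ⟨h7, h6⟩
        · exact Or.inr ⟨⟨by omega, h5⟩, h6⟩
      · rintro (⟨h5, h6⟩ | ⟨⟨h5, h7⟩, h6⟩)
        · exact ⟨by omega, h6⟩
        · exact ⟨h7, h6⟩
    · rw [Finset.disjoint_left]
      intro b hb hb'
      simp only [Finset.mem_filter, Finset.mem_range, Finset.mem_Ico] at hb hb'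
      omega
  rw [Real.dist_eq, h4]
  refine lt_of_le_of_lt (le_of_eq ?_) (lt_of_le_of_lt h3 h1)
  congr 1
  ring

/-- primes selected by a Beatty condition -/
def beatty (c : ℝ) : Set ℕ :=
  {p | p.Prime ∧ ⌊c * (Nat.count Nat.Prime p : ℕ)⌋₊ < ⌊c * ((Nat.count Nat.Prime p : ℕ) + 1)⌋₊}

lemma beatty_step {c : ℝ} (h0 : 0 ≤ c) (h1 : c ≤ 1) (k : ℕ) :
    ⌊c * ((k : ℕ) + 1)⌋₊ = ⌊c * (k : ℕ)⌋₊ ∨ ⌊c * ((k : ℕ) + 1)⌋₊ = ⌊c * (k : ℕ)⌋₊ + 1 := by
  have h2 : ⌊c * (k : ℕ)⌋₊ ≤ ⌊c * ((k : ℕ) + 1)⌋₊ := Nat.floor_le_floor (by nlinarith)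
  have h3 : ⌊c * ((k : ℕ) + 1)⌋₊ ≤ ⌊c * (k : ℕ)⌋₊ + 1 := by
    rw [← Nat.floor_add_one (by positivity)]
    exact Nat.floor_le_floor (by nlinarith)
  omega

open Classical in
lemma cauchy_beatty {c : ℝ} (h0 : 0 ≤ c) (h1 : c ≤ 1) :
    ∃ L : ℝ, Tendsto (fun m : ℕ => ∑ p ∈ (Finset.range m).filter (· ∈ beatty c), (1 : ℝ) / p -
      c * ∑ p ∈ (Finset.range m).filter Nat.Prime, (1 : ℝ) / p) atTop (𝓝 L) := by
  set e : ℕ → ℝ := fun m => (⌊c * (Nat.count Nat.Prime m : ℕ)⌋₊ : ℝ) -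
    c * (Nat.count Nat.Prime m : ℕ) with he
  have he1 : ∀ m, |e m| ≤ 1 := by
    intro m
    have h2 := Nat.floor_le (a := c * (Nat.count Nat.Prime m : ℕ)) (by positivity)
    have h3 := Nat.lt_floor_add_one (c * (Nat.count Nat.Prime m : ℕ))
    rw [abs_le]
    constructor <;> simp only [he] <;> linarith
  have hstep : ∀ m, (if m ∈ beatty c then (1 : ℝ) else 0) - c * (if m.Prime then 1 else 0) =
      e (m + 1) - e m := by
    intro m
    by_cases hm : m.Prime
    · have hc : Nat.count Nat.Prime (m + 1) = Nat.count Nat.Prime m + 1 := by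
        rw [Nat.count_succ, if_pos hm]
      simp only [he, hc, if_pos hm]
      push_cast
      rcases beatty_step h0 h1 (Nat.count Nat.Prime m) with h | h
      · have hnot : m ∉ beatty c := by
          rintro ⟨_, h2⟩
          omega
        rw [if_neg hnot, h]
        ring
      · have hin : m ∈ beatty c := ⟨hm, by omega⟩
        rw [if_pos hin, h]
        push_cast
        ring
    · have hc : Nat.count Nat.Prime (m + 1) = Nat.count Nat.Prime m := by
        rw [Nat.count_succ, if_neg hm, Nat.add_zero]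
      have hnot : m ∉ beatty c := fun h => hm h.1
      simp only [he, hc, if_neg hm, if_neg hnot]
      ring
  -- the sum as a series
  have hsum : ∀ m : ℕ, ∑ p ∈ (Finset.range m).filter (· ∈ beatty c), (1 : ℝ) / p -
      c * ∑ p ∈ (Finset.range m).filter Nat.Prime, (1 : ℝ) / p =
      ∑ k ∈ Finset.range m, (1 / (k : ℝ)) * (e (k + 1) - e k) := by
    intro m
    rw [Finset.sum_filter, Finset.sum_filter, Finset.mul_sum, ← Finset.sum_sub_distrib]
    refine Finset.sum_congr rfl fun k _ => ?_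
    rw [← hstep]
    split_ifs <;> ring
  have hcau : CauchySeq (fun n : ℕ => ∑ i ∈ Finset.range n, (1 / ((i : ℝ) + 1)) •
      (e (i + 2) - e (i + 1))) := by
    refine Antitone.cauchySeq_series_mul_of_tendsto_zero_of_bounded (b := 2) ?_
      tendsto_one_div_add_atTop_nhds_zero_nat ?_
    · intro i j hij
      have : (i : ℝ) ≤ j := by exact_mod_cast hij
      exact one_div_le_one_div_of_le (by positivity) (by linarith)
    · intro n
      have h2 : ∑ i ∈ Finset.range n, (e (i + 2) - e (i + 1)) = e (n + 1) - e 1 := by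
        have := Finset.sum_range_sub (fun i => e (i + 1)) n
        simpa using this
      rw [h2, Real.norm_eq_abs]
      have h3 := he1 (n + 1)
      have h4 := he1 1
      rw [abs_le] at h3 h4 ⊢
      constructor <;> linarith [h3.1, h3.2, h4.1, h4.2]
  obtain ⟨L, hL⟩ := cauchySeq_tendsto_of_complete hcau
  refine ⟨L, ?_⟩
  rw [← tendsto_add_atTop_iff_nat 1]
  refine hL.congr fun n => ?_
  rw [hsum, Finset.sum_range_succ']
  simp only [Nat.cast_zero, div_zero, zero_mul, add_zero, smul_eq_mul]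
  refine Finset.sum_congr rfl fun k _ => ?_
  push_cast
  rfl

lemma tendsto_loglog_ceil :
    Tendsto (fun x : ℝ => Real.log (Real.log (⌈x⌉₊ : ℝ)) - Real.log (Real.log x)) atTop (𝓝 0) := by
  have hup : Tendsto (fun x : ℝ => 1 / x) atTop (𝓝 0) := by
    simpa using tendsto_inv_atTop_zero (𝕜 := ℝ)
  refine tendsto_of_tendsto_of_tendsto_of_le_of_le' tendsto_const_nhds hup ?_ ?_
  · filter_upwards [eventually_ge_atTop (3 : ℝ)] with x hx
    have h1 : x ≤ (⌈x⌉₊ : ℝ) := Nat.le_ceil x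
    have h2 : 0 < Real.log x := Real.log_pos (by linarith)
    have h3 := Real.log_le_log h2 (Real.log_le_log (by linarith) h1)
    linarith
  · filter_upwards [eventually_ge_atTop (3 : ℝ)] with x hx
    have h1 : (⌈x⌉₊ : ℝ) ≤ x + 1 := (Nat.ceil_lt_add_one (by linarith)).le
    have h1' : x ≤ (⌈x⌉₊ : ℝ) := Nat.le_ceil x
    have hlx : 1 < Real.log x := by
      have h3 : Real.exp 1 < x := by have := Real.exp_one_lt_d9; linarith
      calc (1 : ℝ) = Real.log (Real.exp 1) := (Real.log_exp 1).symm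
        _ < Real.log x := Real.log_lt_log (Real.exp_pos 1) h3
    have hgen : ∀ u v : ℝ, 0 < u → u ≤ v → Real.log v - Real.log u ≤ (v - u) / u := by
      intro u v hu huv
      rw [← Real.log_div (by linarith) (by linarith)]
      have := Real.log_le_sub_one_of_pos (div_pos (by linarith : 0 < v) hu)
      rw [sub_div, div_self hu.ne']
      exact this
    have h4 := hgen x (⌈x⌉₊ : ℝ) (by linarith) h1'
    have h5 := hgen (Real.log x) (Real.log (⌈x⌉₊ : ℝ)) (by linarith)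
      (Real.log_le_log (by linarith) h1')
    have h6 : ((⌈x⌉₊ : ℝ) - x) / x ≤ 1 / x := by
      gcongr
      linarith
    have h7 : 0 ≤ Real.log (⌈x⌉₊ : ℝ) - Real.log x := by
      have := Real.log_le_log (by linarith) h1'
      linarith
    calc Real.log (Real.log (⌈x⌉₊ : ℝ)) - Real.log (Real.log x)
        ≤ (Real.log (⌈x⌉₊ : ℝ) - Real.log x) / Real.log x := h5
      _ ≤ Real.log (⌈x⌉₊ : ℝ) - Real.log x := div_le_self h7 hlx.le
      _ ≤ 1 / x := by linarith

lemma beatty_const {c : ℝ} (h0 : 0 ≤ c) (h1 : c ≤ 1) :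
    ∃ L : ℝ, Tendsto (fun x : ℝ => recip (beatty c) x - c * Real.log (Real.log x)) atTop (𝓝 L) := by
  classical
  obtain ⟨L₁, hL₁⟩ := cauchy_beatty h0 h1
  obtain ⟨L₂, hL₂⟩ := cauchySeq_tendsto_of_complete cauchy_prime
  refine ⟨L₁ + c * L₂ + c * 0, ?_⟩
  have h2 := ((hL₁.add (hL₂.const_mul c)).comp (tendsto_nat_ceil_atTop (α := ℝ))).add
    (tendsto_loglog_ceil.const_mul c)
  refine h2.congr fun x => ?_
  simp only [Function.comp_apply]
  unfold recip
  have h3 : ∑ b ∈ (Finset.range ⌈x⌉₊).filter (fun b => b ∈ beatty c), (1 : ℝ) / b =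
    ∑ b ∈ (Finset.range ⌈x⌉₊).filter (· ∈ beatty c), (1 : ℝ) / b :=
      Finset.sum_congr (by ext; simp) fun _ _ => rfl
  rw [h3]
  ring

/-- For every `c ∈ [0,1]` a set of primes of relative density `c`, with translates. -/
theorem regular {c : ℝ} (h0 : 0 ≤ c) (h1 : c ≤ 1) : ∃ B : Set ℕ, (∀ b ∈ B, b.Prime) ∧
    (∃ L : ℝ, Tendsto (fun x : ℝ => recip B x - c * Real.log (Real.log x)) atTop (𝓝 L)) ∧
    ∀ n : ℕ, 1 ≤ n → ∃ t ≥ 1, ∀ a, 1 ≤ a → a ≤ n →
        ((∀ b ∈ B, ¬ b ∣ a) ↔ ∀ b ∈ B, ¬ b ∣ a + t) := by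
  obtain ⟨L, hL⟩ := beatty_const h0 h1
  obtain ⟨B, hB, _, hB2, hB3⟩ := sparse (BB := beatty c) (fun b hb => hb.1.one_le)
    (fun b hb c hc hbc => (Nat.coprime_primes hb.1 hc.1).mpr hbc) tendsto_id one_pos
  refine ⟨B, fun b hb => (hB hb).1, ?_, hB3⟩
  have hmono : Monotone (fun x : ℝ => recip (beatty c \ B) x) := fun x y h => recip_mono _ h
  have hbdd : BddAbove (Set.range (fun x : ℝ => recip (beatty c \ B) x)) := by
    refine ⟨1, ?_⟩
    rintro _ ⟨x, rfl⟩
    exact hB2 x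
  have h2 := tendsto_atTop_ciSup hmono hbdd
  refine ⟨_, (hL.sub h2).congr fun x => ?_⟩
  rw [recip_sub _ B hB x]
  ring

end Pool.Agent.H40R
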