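import Pool.Agent.H14Trans.Main

/-!
# Many translates whose large moduli are pairwise disjoint

For a pairwise coprime set `BB` and `n`, at arbitrarily large scales `v` there are at least `v`
integers `s` such that at most `r` elements of `BB` (all between `v` and `v ^ C`) can spoil the
translate `M s`, and these spoiling elements are different for different `s`.
-/

set_option autoImplicit false

namespace Pool.Agent.H40R

open Finset Classical Pool.Agent.H14Trans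

lemma card_big_div {F : Finset ℕ} {w m k : ℕ} (hw : 1 < w) (hF : ∀ b ∈ F, w < b)
    (hc : ∀ b ∈ F, ∀ c ∈ F, b ≠ c → b.Coprime c) (hd : ∀ b ∈ F, b ∣ m) (hm : 0 < m)
    (hmk : m ≤ w ^ k) : #F ≤ k := by
  have h1 : ∏ b ∈ F, b ∣ m := by
    refine Finset.prod_dvd_of_isRelPrime (fun b hb c hc' hbc => ?_) hd
    exact (Nat.coprime_iff_isRelPrime.mp (hc b hb c hc' hbc))
  have h2 : w ^ #F ≤ ∏ b ∈ F, b := by
    rw [← Finset.prod_const]
    exact Finset.prod_le_prod' fun b hb => (hF b hb).le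
  have h3 : w ^ #F ≤ w ^ k := h2.trans ((Nat.le_of_dvd hm h1).trans hmk)
  exact (Nat.pow_le_pow_iff_right hw).mp h3

lemma card_cover_le {G S : Finset ℕ} {Q : ℕ → Finset ℕ}
    (h : ∀ g ∈ G, g ∈ S ∨ ∃ s ∈ S, ¬ Disjoint (Q s) (Q g)) :
    ((#G : ℕ) : ℝ) ≤ #S + ∑ s ∈ S, ∑ b ∈ Q s, ((#(G.filter (fun g => b ∈ Q g)) : ℕ) : ℝ) := by
  have h1 : G ⊆ S ∪ S.biUnion (fun s => (Q s).biUnion (fun b => G.filter (fun g => b ∈ Q g))) := by
    intro g hg
    rw [mem_union]
    rcases h g hg with h | ⟨s, hs, hnd⟩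
    · exact Or.inl h
    · right
      rw [not_disjoint_iff] at hnd
      obtain ⟨b, hb1, hb2⟩ := hnd
      rw [mem_biUnion]
      refine ⟨s, hs, ?_⟩
      rw [mem_biUnion]
      exact ⟨b, hb1, mem_filter.mpr ⟨hg, hb2⟩⟩
  have h2 : #G ≤ #S + ∑ s ∈ S, ∑ b ∈ Q s, #(G.filter (fun g => b ∈ Q g)) :=
    (card_le_card h1).trans ((card_union_le _ _).trans (Nat.add_le_add_left
      (card_biUnion_le.trans (sum_le_sum fun s _ => card_biUnion_le)) _))
  exact_mod_cast h2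

lemma sum_sum_le {S : Finset ℕ} {Q : ℕ → Finset ℕ} {r : ℕ} {c : ℝ} (hc : 0 ≤ c) {f : ℕ → ℝ}
    (hr : ∀ s ∈ S, #(Q s) ≤ r) (hf : ∀ s ∈ S, ∀ b ∈ Q s, f b ≤ c) :
    ∑ s ∈ S, ∑ b ∈ Q s, f b ≤ #S * (r * c) := by
  calc ∑ s ∈ S, ∑ b ∈ Q s, f b ≤ ∑ _s ∈ S, (r : ℝ) * c := by
        refine sum_le_sum fun s hs => ?_
        calc ∑ b ∈ Q s, f b ≤ ∑ _b ∈ Q s, c := sum_le_sum fun b hb => hf s hs b hb
          _ = #(Q s) * c := by rw [sum_const, nsmul_eq_mul]
          _ ≤ r * c := by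
            have : (#(Q s) : ℝ) ≤ r := by exact_mod_cast hr s hs
            gcongr
    _ = #S * (r * c) := by rw [sum_const, nsmul_eq_mul]

lemma arith1 {g s t r n x : ℝ} (hs : 0 ≤ s) (h2 : g ≤ s + t) (h3 : t ≤ s * (r * (2 * n * x)))
    (h5 : 1 ≤ r * n * x) : g ≤ s * (3 * r * n * x) := by
  have h6 := mul_le_mul_of_nonneg_left h5 hs
  linarith

lemma arith2 {N V w : ℝ} (h16 : 16 ≤ w) (hVw : 1 ≤ V * w) (hV : 0 ≤ V) (hN : w ^ 2 ≤ N) :
    16 ≤ N * V := by
  calc (16 : ℝ) ≤ w * 1 := by linarith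
    _ ≤ w * (V * w) := by gcongr
    _ = w ^ 2 * V := by ring
    _ ≤ N * V := by gcongr

lemma arith3 {N V w v r n : ℝ} (hwv : w = v * v) (hv : 2 ≤ v) (hr : 1 ≤ r) (hn : 0 ≤ n)
    (hV : 12 * r * n ≤ V * v) (hN : 0 ≤ N) (hw : 0 < w) : 2 * n * (N / w) ≤ N * V / 8 := by
  have h1 : 12 * n ≤ V * v := by nlinarith
  have h2 : 16 * n ≤ V * w := by
    rw [hwv]
    calc 16 * n ≤ 12 * n * 2 := by linarith
      _ ≤ (V * v) * v := by
          have h3 : 0 ≤ V * v := le_trans (by positivity) h1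
          exact mul_le_mul h1 hv (by norm_num) h3
      _ = V * (v * v) := by ring
  rw [mul_div_assoc', div_le_iff₀ hw]
  nlinarith [mul_le_mul_of_nonneg_left h2 hN]

lemma arith4 {a g q N V x : ℝ} (h : a ≤ 1 + g + q) (hq : q ≤ x) (hx : x ≤ N * V / 8)
    (h16 : 16 ≤ N * V) (hlow : N * V / 2 ≤ a) : N * V / 4 ≤ g := by
  linarith

lemma arith5 {V w v r n N s : ℝ} (hN : 0 < N) (hw : 0 < w) (hv : 0 < v) (hwv : w = v * v)
    (h1 : N * V / 4 ≤ s * (3 * r * n * (N / w))) (hV : 12 * r * n ≤ V * v)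
    (hrn : 0 < 12 * r * n) : v ≤ s := by
  have h2 : V * w ≤ s * (12 * r * n) := by
    have h3 : N * V / 4 * (4 * w / N) ≤ s * (3 * r * n * (N / w)) * (4 * w / N) := by
      gcongr
    have h4 : N * V / 4 * (4 * w / N) = V * w := by field_simp
    have h5 : s * (3 * r * n * (N / w)) * (4 * w / N) = s * (12 * r * n) := by
      field_simp; ring
    linarith
  have h4 : v * (12 * r * n) ≤ s * (12 * r * n) := by
    calc v * (12 * r * n) ≤ v * (V * v) := by gcongr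
      _ = V * w := by rw [hwv]; ring
      _ ≤ _ := h2
  exact le_of_mul_le_mul_right h4 hrn

lemma arith6 (n N w : ℝ) : n * (N * (1 / w) + N / w) = 2 * n * (N / w) := by ring

lemma sum_aux {D A : Finset ℕ} {n : ℕ} (hA : #A = n) (N : ℝ) :
    ∑ b ∈ D, ∑ _a ∈ A, (N * ((b : ℝ) ^ 2)⁻¹ + 1) = n * (N * ∑ b ∈ D, ((b : ℝ) ^ 2)⁻¹ + #D) := by
  simp only [sum_const, hA, nsmul_eq_mul]
  rw [← mul_sum, sum_add_distrib, ← mul_sum, sum_const, nsmul_eq_mul, mul_one]

lemma exists_disjoint_family (G : Finset ℕ) (Q : ℕ → Finset ℕ) :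
    ∃ S ⊆ G, (S : Set ℕ).PairwiseDisjoint Q ∧
      ∀ g ∈ G, g ∈ S ∨ ∃ s ∈ S, ¬ Disjoint (Q s) (Q g) := by
  obtain ⟨S, hS, hmax⟩ := Finset.exists_max_image
    (G.powerset.filter (fun S : Finset ℕ => (S : Set ℕ).PairwiseDisjoint Q)) Finset.card
    ⟨∅, by simp⟩
  rw [mem_filter, mem_powerset] at hS
  refine ⟨S, hS.1, hS.2, fun g hg => ?_⟩
  by_contra hcon
  push Not at hcon
  obtain ⟨h1, h2⟩ := hcon
  have h3 := hmax (insert g S) (by
    rw [mem_filter, mem_powerset]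
    refine ⟨insert_subset hg hS.1, ?_⟩
    rw [coe_insert]
    refine hS.2.insert fun s hs _ => ?_
    exact (h2 s hs).symm)
  rw [card_insert_of_notMem h1] at h3
  omega

/-- the version for moduli at least `2` -/
theorem family_two (n : ℕ) (hn : 1 ≤ n) : ∃ r C X₀ : ℕ, ∀ BB : Set ℕ, (∀ b ∈ BB, 2 ≤ b) →
    (∀ b ∈ BB, ∀ c ∈ BB, b ≠ c → b.Coprime c) → ∀ x : ℕ, X₀ ≤ x →
      ∃ (S : Finset ℕ) (Q : ℕ → Finset ℕ), x ≤ #S ∧ (S : Set ℕ).PairwiseDisjoint Q ∧
        ∀ s ∈ S, #(Q s) ≤ r ∧ (∀ b ∈ Q s, b ∈ BB ∧ x < b ∧ b ≤ x ^ C) ∧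
          ∀ B : Set ℕ, (∀ m ∈ B, ∃ b ∈ BB, ∃ k, 1 ≤ k ∧ m = b ^ k) → (∀ b ∈ B, b ∉ Q s) →
            ∃ t ≥ 1, ∀ a, 1 ≤ a → a ≤ n → ((∀ b ∈ B, ¬ b ∣ a) ↔ ∀ b ∈ B, ¬ b ∣ a + t) := by
  obtain ⟨s₁, hs₁, hF⟩ := fundamental n 16 (by norm_num)
  obtain ⟨J₀, hJ₀⟩ := hF (2 * n + 2) le_rfl
  set y₀ := 2 * n + 2 with hy₀
  set r := n * (2 * s₁ + 2) with hr
  obtain ⟨J₁, hJ₁⟩ := growth (12 * r * n * Real.exp (32 * n)) (32 * n)
  set Jm := max (max J₀ J₁) (y₀.factorial ^ n + n + 4) with hJm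
  refine ⟨r, 2 * (2 * (2 * s₁ + 2)), y₀ ^ (2 ^ Jm) + 1, fun BB hB2 hBc x₀ hx₀ => ?_⟩
  have hy1 : 1 < y₀ := by omega
  have hex : ∃ j : ℕ, x₀ ≤ y₀ ^ (2 ^ j) := by
    refine ⟨x₀, ?_⟩
    calc x₀ ≤ 2 ^ x₀ := Nat.lt_two_pow_self.le
      _ ≤ 2 ^ (2 ^ x₀) := Nat.pow_le_pow_right (by norm_num) Nat.lt_two_pow_self.le
      _ ≤ y₀ ^ (2 ^ x₀) := Nat.pow_le_pow_left (by omega) _
  set J' := Nat.find hex with hJ'
  have hxv : x₀ ≤ y₀ ^ (2 ^ J') := Nat.find_spec hex
  have hJJm : Jm < J' := by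
    by_contra hcon
    push Not at hcon
    have h1 : y₀ ^ (2 ^ J') ≤ y₀ ^ (2 ^ Jm) :=
      Nat.pow_le_pow_right (by omega) (Nat.pow_le_pow_right (by norm_num) hcon)
    omega
  have hJ'0 : J₀ ≤ J' := ((le_max_left _ _).trans (le_max_left _ _)).trans hJJm.le
  have hJ'1 : J₁ ≤ J' := ((le_max_right _ _).trans (le_max_left _ _)).trans hJJm.le
  have hJ'3 : y₀.factorial ^ n + n + 4 ≤ J' := (le_max_right _ _).trans hJJm.le
  have hvx : y₀ ^ (2 ^ J') ≤ x₀ ^ 2 := by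
    have h1 := Nat.find_min hex (m := J' - 1) (by omega)
    push Not at h1
    have h2 : y₀ ^ (2 ^ J') = (y₀ ^ (2 ^ (J' - 1))) ^ 2 := by
      rw [← pow_mul, ← pow_succ, Nat.sub_add_cancel (by omega)]
    rw [h2]
    exact Nat.pow_le_pow_left h1.le 2
  set v : ℕ := y₀ ^ (2 ^ J') with hv
  set w : ℕ := y₀ ^ (2 ^ (J' + 1)) with hw
  have hwv : w = v ^ 2 := by rw [hw, hv, ← pow_mul, ← pow_succ]
  have hJv : J' < v := by
    calc J' < 2 ^ J' := Nat.lt_two_pow_self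
      _ < 2 ^ (2 ^ J') := Nat.lt_two_pow_self
      _ ≤ v := Nat.pow_le_pow_left (by omega) _
  have hvw : v ≤ w := by rw [hwv]; exact Nat.le_self_pow (by norm_num) v
  have hyw : y₀ ≤ v := by
    calc y₀ = y₀ ^ 1 := (pow_one _).symm
      _ ≤ v := Nat.pow_le_pow_right (by omega) Nat.one_le_two_pow
  have hn0 : (0 : ℝ) < n := by exact_mod_cast hn
  have hr1 : 1 ≤ r := Nat.succ_le_of_lt (Nat.mul_pos hn (by omega))
  have hr0 : (0 : ℝ) < r := by exact_mod_cast hr1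
  have hwR : (w : ℝ) = (y₀ : ℝ) ^ (2 ^ (J' + 1)) := by rw [hw]; push_cast; rfl
  have hw0 : (0 : ℝ) < w := by exact_mod_cast (by omega : 0 < w)
  have hv0 : (0 : ℝ) < v := by exact_mod_cast (by omega : 0 < v)
  -- the modulus
  set M : ℕ := ∏ b ∈ (Icc 1 y₀).filter (fun b => b ∈ BB), b ^ n with hM
  have hM1 : 1 ≤ M := by
    refine Nat.succ_le_of_lt (Finset.prod_pos fun b hb => ?_)
    have h1 := (mem_filter.mp hb).1
    rw [mem_Icc] at h1
    exact Nat.pow_pos (by omega)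
  have hMn : M ≤ y₀.factorial ^ n := by
    rw [hM, Finset.prod_pow]
    refine Nat.pow_le_pow_left ?_ n
    have : ∏ b ∈ Icc 1 y₀, b = y₀.factorial := prod_Icc_fact y₀
    rw [← this]
    exact prod_le_prod_of_subset_of_one_le' (filter_subset _ _) (fun b hb _ => by
      rw [mem_Icc] at hb; exact hb.1)
  have hMcop : ∀ b ∈ BB, y₀ < b → M.Coprime b := by
    intro b hb hnb
    refine Nat.Coprime.prod_left fun c hc => ?_
    rw [mem_filter, mem_Icc] at hc
    exact Nat.Coprime.pow_left n (hBc c hc.2 b hb (by omega))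
  have hMdvd : ∀ b ∈ BB, b ≤ y₀ → b ^ n ∣ M := by
    intro b hb hbn
    refine dvd_prod_of_mem (fun b => b ^ n) ?_
    rw [mem_filter, mem_Icc]
    exact ⟨⟨by have := hB2 b hb; omega, hbn⟩, hb⟩
  set A : Finset ℕ := Icc 1 n with hA
  have hAn : ∀ a ∈ A, a ≤ n := fun a ha => by rw [hA, mem_Icc] at ha; exact ha.2
  have hA1 : ∀ a ∈ A, 1 ≤ a := fun a ha => by rw [hA, mem_Icc] at ha; exact ha.1
  have hAcard : #A = n := by simp [hA]
  -- sieve data
  set D : Finset ℕ := (Ioc y₀ w).filter (fun b => b ∈ BB) with hD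
  have hDB : ∀ b ∈ D, b ∈ BB ∧ y₀ < b ∧ b ≤ w := fun b hb => by
    rw [hD, mem_filter, mem_Ioc] at hb; exact ⟨hb.2, hb.1.1, hb.1.2⟩
  have hDM : ∀ b ∈ D, M.Coprime b := fun b hb => hMcop b (hDB b hb).1 (hDB b hb).2.1
  have hgood : Good (bd M 0 A) (fun _ => #A) D := by
    refine ⟨fun b hb => by have := (hDB b hb).2.1; omega, fun b _ s => bd_periodic M 0 A b s,
      fun b hb => card_bd hAn (by have := (hDB b hb).2.1; omega) (hDM b hb), fun b hb c hc' => ?_⟩
    exact hBc b (hDB b hb).1 c (hDB c hc').1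
  have hmassD : ∀ i : ℕ, ∑ b ∈ lay y₀ D i, (1 : ℝ) / b ≤ 16 := by
    intro i
    have hsub : ∀ b ∈ lay y₀ D i, b ∈ D := fun b hb => (mem_filter.mp hb).1
    refine mass_le (y := y₀ ^ (2 ^ i)) (fun b hb => hB2 b (hDB b (hsub b hb)).1)
      (fun b hb c hc' => hBc b (hDB b (hsub b hb)).1 c (hDB c (hsub c hc')).1) ?_
      (fun b hb => ?_) (fun b hb => ?_)
    · calc 2 ≤ y₀ ^ 1 := by rw [pow_one]; omega
        _ ≤ _ := Nat.pow_le_pow_right (by omega) Nat.one_le_two_pow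
    · exact (mem_filter.mp hb).2.1
    · have h3 := (mem_filter.mp hb).2.2
      rwa [← pow_mul, ← pow_succ]
  set V : ℝ := ∏ b ∈ D, (1 - ((#A : ℕ) : ℝ) / b) with hV
  obtain ⟨hVw, hFL⟩ := hJ₀ (J' + 1) (by omega) (bd M 0 A) (fun _ => #A) D hgood
      (fun b hb => ⟨hAcard.le, by have := (hDB b hb).2.1; simp only [hAcard]; omega⟩)
      (fun b hb => (hDB b hb).2.2) (fun i _ => hmassD i)
  have hlow := (hFL (w ^ (2 * s₁ + 1)) (Nat.pow_le_pow_right (by omega) (by omega))).1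
  rw [← hwR] at hVw
  change 1 ≤ V * (w : ℝ) at hVw
  set N : ℕ := w ^ (2 * s₁ + 1) with hN
  change N * V / 2 ≤ (#((range N).filter (Sift (bd M 0 A) D)) : ℝ) at hlow
  -- lower bound for `V`
  have hVlow : 12 * (r : ℝ) * n ≤ V * v := by
    have h1 : Real.exp (-(2 * ∑ b ∈ D, ((#A : ℕ) : ℝ) / b)) ≤ V := by
      refine prod_ge_exp (fun b _ => by positivity) (fun b hb => ?_)
      have h2 := (hDB b hb).2.1
      have h3 : (0 : ℝ) < b := by exact_mod_cast (by omega : 0 < b)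
      rw [div_le_iff₀ h3, hAcard]
      have h4 : ((2 * n : ℕ) : ℝ) ≤ b := by exact_mod_cast (by omega : 2 * n ≤ b)
      push_cast at h4
      linarith only [h4]
    have h2 : ∑ b ∈ D, ((#A : ℕ) : ℝ) / b ≤ n * (16 * (J' + 1)) := by
      have hDeq := lay_union (y₀ := y₀) (J := J' + 1) (D := D) (fun b hb => (hDB b hb).2.2)
      have hDe : D.filter (fun b => b ≤ y₀) = ∅ := by
        rw [filter_eq_empty_iff]
        intro b hb
        have := (hDB b hb).2.1
        omega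
      rw [hDe, empty_union] at hDeq
      have h3 : ∑ b ∈ D, ((#A : ℕ) : ℝ) / b = n * ∑ b ∈ D, (1 : ℝ) / b := by
        rw [mul_sum]
        refine sum_congr rfl fun b _ => ?_
        rw [hAcard]; ring
      rw [h3]
      refine mul_le_mul_of_nonneg_left ?_ hn0.le
      rw [hDeq, sum_biUnion (fun i _ j _ hij => lay_disjoint (by omega) D hij)]
      calc ∑ i ∈ range (J' + 1), ∑ b ∈ lay y₀ D i, (1 : ℝ) / b
          ≤ ∑ i ∈ range (J' + 1), (16 : ℝ) := sum_le_sum fun i _ => hmassD i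
        _ = 16 * (J' + 1) := by rw [sum_const, card_range, nsmul_eq_mul]; push_cast; ring
    have h3 : Real.exp (-(32 * n * (J' + 1))) ≤ V := by
      refine le_trans (Real.exp_le_exp.mpr ?_) h1
      linarith only [h2]
    have h4 : 12 * (r : ℝ) * n * Real.exp (32 * n * (J' + 1)) ≤ v := by
      have h5 := hJ₁ J' hJ'1
      have h6 : Real.exp (32 * n * (J' + 1)) = Real.exp (32 * n) * Real.exp (32 * n * J') := by
        rw [← Real.exp_add]; congr 1; ring
      have h7 : (2 : ℝ) ^ (2 ^ J') ≤ v := by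
        rw [hv]; push_cast
        exact pow_le_pow_left₀ (by norm_num) (by exact_mod_cast (by omega : 2 ≤ y₀)) _
      have h8 : (1 : ℝ) ≤ (J' : ℝ) + 1 := by
        have := Nat.cast_nonneg (α := ℝ) J'
        linarith only [this]
      have h9 : 0 ≤ 12 * (r : ℝ) * n * Real.exp (32 * n) := by positivity
      calc 12 * (r : ℝ) * n * Real.exp (32 * n * (J' + 1))
          = 12 * (r : ℝ) * n * Real.exp (32 * n) * 1 * Real.exp (32 * n * J') := by rw [h6]; ring
        _ ≤ 12 * (r : ℝ) * n * Real.exp (32 * n) * ((J' : ℝ) + 1) * Real.exp (32 * n * J') := by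
            gcongr
        _ ≤ v := h5.trans h7
    calc 12 * (r : ℝ) * n
        = Real.exp (-(32 * n * (J' + 1))) *
            (12 * (r : ℝ) * n * Real.exp (32 * n * (J' + 1))) := by
          rw [mul_left_comm, ← Real.exp_add, neg_add_cancel, Real.exp_zero, mul_one]
      _ ≤ V * v := mul_le_mul h3 h4 (by positivity) (by
          refine le_trans (Real.exp_pos _).le h3)
  have hV0 : 0 < V := by
    by_contra hcon
    push Not at hcon
    have : V * (w : ℝ) ≤ 0 := mul_nonpos_of_nonpos_of_nonneg hcon hw0.le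
    linarith only [this, hVw]
  -- the spoiling moduli
  have hNle : M * N + n ≤ w ^ (2 * s₁ + 2) := by
    have hN1 : 1 ≤ N := Nat.one_le_pow _ _ (by omega)
    calc M * N + n ≤ M * N + n * N := by gcongr; exact Nat.le_mul_of_pos_right _ hN1
      _ = (M + n) * N := by ring
      _ ≤ w * N := by gcongr; omega
      _ = w ^ (2 * s₁ + 2) := by rw [hN]; ring
  set Q : ℕ → Finset ℕ := fun s => (Ioc y₀ (M * N + n)).filter
    (fun b => b ∈ BB ∧ ∃ a ∈ A, b ∣ M * s + a) with hQ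
  set Dq : Finset ℕ := (Ioc w (w ^ (s₁ + 1))).filter (fun b => b ∈ BB) with hDq
  set G : Finset ℕ := ((range N).filter (fun s => Sift (bd M 0 A) D s ∧
    ∀ b ∈ Dq, ∀ a ∈ A, ¬ b ^ 2 ∣ M * s + a)).erase 0 with hG
  have hGm : ∀ s ∈ G, s ≠ 0 ∧ s < N ∧ Sift (bd M 0 A) D s := fun s hs => by
    rw [hG, mem_erase, mem_filter, mem_range] at hs; exact ⟨hs.1, hs.2.1, hs.2.2.1⟩
  have hGq : ∀ s ∈ G, ∀ b ∈ Dq, ∀ a ∈ A, ¬ b ^ 2 ∣ M * s + a := fun s hs => by
    rw [hG, mem_erase, mem_filter, mem_range] at hs; exact hs.2.2.2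
  have hQw : ∀ s ∈ G, ∀ b ∈ Q s, b ∈ BB ∧ w < b ∧ b ≤ M * N + n := by
    intro s hs b hb
    rw [hQ, mem_filter, mem_Ioc] at hb
    refine ⟨hb.2.1, ?_, hb.1.2⟩
    by_contra hcon
    push Not at hcon
    obtain ⟨a, ha, hd⟩ := hb.2.2
    refine (hGm s hs).2.2 b ?_ ⟨a, ha, by rw [Nat.zero_add]; exact hd⟩
    rw [hD, mem_filter, mem_Ioc]
    exact ⟨⟨hb.1.1, hcon⟩, hb.2.1⟩
  have hQcard : ∀ s ∈ G, #(Q s) ≤ r := by
    intro s hs
    have h1 : Q s ⊆ A.biUnion (fun a => (Q s).filter (fun b => b ∣ M * s + a)) := by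
      intro b hb
      have hb' := hb
      rw [hQ, mem_filter] at hb'
      obtain ⟨a, ha, hd⟩ := hb'.2.2
      rw [mem_biUnion]
      exact ⟨a, ha, mem_filter.mpr ⟨hb, hd⟩⟩
    refine (card_le_card h1).trans (card_biUnion_le.trans ?_)
    calc ∑ a ∈ A, #((Q s).filter (fun b => b ∣ M * s + a))
        ≤ ∑ a ∈ A, (2 * s₁ + 2) := by
          refine sum_le_sum fun a ha => ?_
          refine card_big_div (w := w) (m := M * s + a) (by omega)
            (fun b hb => (hQw s hs b (mem_filter.mp hb).1).2.1)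
            (fun b hb c hc => hBc b (hQw s hs b (mem_filter.mp hb).1).1 c
              (hQw s hs c (mem_filter.mp hc).1).1)
            (fun b hb => (mem_filter.mp hb).2) (by have := hA1 a ha; omega) ?_
          refine le_trans ?_ hNle
          have h2 : M * s ≤ M * N := Nat.mul_le_mul_left _ (hGm s hs).2.1.le
          have h3 := hAn a ha
          omega
      _ = r := by rw [sum_const, hAcard, smul_eq_mul]
  have hconf : ∀ b ∈ BB, w < b → ((#(G.filter (fun g => b ∈ Q g)) : ℕ) : ℝ) ≤ 2 * n * (N / w) := by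
    intro b hb hwb
    have h1 : G.filter (fun g => b ∈ Q g) ⊆
        A.biUnion (fun a => (range N).filter (fun s => b ∣ M * s + a)) := by
      intro g hg
      rw [mem_filter] at hg
      have h2 := hg.2
      rw [hQ, mem_filter] at h2
      obtain ⟨a, ha, hd⟩ := h2.2.2
      rw [mem_biUnion]
      exact ⟨a, ha, mem_filter.mpr ⟨mem_range.mpr (hGm g hg.1).2.1, hd⟩⟩
    have hNw : (1 : ℝ) ≤ N / w := by
      rw [one_le_div hw0]
      have : w ≤ N := by
        calc w = w ^ 1 := (pow_one _).symm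
          _ ≤ N := Nat.pow_le_pow_right (by omega) (by omega)
      exact_mod_cast this
    calc ((#(G.filter (fun g => b ∈ Q g)) : ℕ) : ℝ)
        ≤ ∑ a ∈ A, ((#((range N).filter (fun s => b ∣ M * s + a)) : ℕ) : ℝ) := by
          exact_mod_cast (card_le_card h1).trans card_biUnion_le
      _ ≤ ∑ a ∈ A, (2 * ((N : ℝ) / w)) := by
          refine sum_le_sum fun a _ => ?_
          refine (div_count (by omega) (hMcop b hb (by omega))).trans ?_
          have h3 : (N : ℝ) / b ≤ N / w := by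
            have : (w : ℝ) ≤ b := by exact_mod_cast hwb.le
            gcongr
          linarith only [h3, hNw]
      _ = 2 * n * (N / w) := by rw [sum_const, hAcard, nsmul_eq_mul]; ring
  have hwN : w ≤ N := by
    calc w = w ^ 1 := (pow_one _).symm
      _ ≤ N := Nat.pow_le_pow_right (by omega) (by omega)
  have hNw : (1 : ℝ) ≤ N / w := by
    rw [one_le_div hw0]
    exact_mod_cast hwN
  clear_value G Q N V D A M w v
  obtain ⟨S, hSG, hSdisj, hSmax⟩ := exists_disjoint_family G Q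
  have hGS : ((#G : ℕ) : ℝ) ≤ #S * (3 * r * n * (N / w)) := by
    have h2 : ((#G : ℕ) : ℝ) ≤ #S + ∑ s ∈ S, ∑ b ∈ Q s, ((#(G.filter (fun g => b ∈ Q g)) : ℕ) : ℝ) :=
      card_cover_le hSmax
    have h3 : ∑ s ∈ S, ∑ b ∈ Q s, ((#(G.filter (fun g => b ∈ Q g)) : ℕ) : ℝ) ≤
        #S * (r * (2 * n * ((N : ℝ) / w))) :=
      sum_sum_le (by positivity) (fun s hs => hQcard s (hSG hs)) fun s hs b hb => by
        have h4 := hQw s (hSG hs) b hb
        exact hconf b h4.1 h4.2.1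
    have h5 : (1 : ℝ) ≤ r * n * (N / w) := by
      have h6 : (1 : ℝ) ≤ r := by exact_mod_cast hr1
      have h7 : (1 : ℝ) ≤ n := by exact_mod_cast hn
      have h8 : (1 : ℝ) ≤ r * n := one_le_mul_of_one_le_of_one_le h6 h7
      exact one_le_mul_of_one_le_of_one_le h8 hNw
    exact arith1 (Nat.cast_nonneg _) h2 h3 h5
  have hGlow : N * V / 4 ≤ ((#G : ℕ) : ℝ) := by
    have hcov : (range N).filter (Sift (bd M 0 A) D) ⊆ ({0} : Finset ℕ) ∪ G ∪
        Dq.biUnion (fun b => A.biUnion (fun a =>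
          (range N).filter (fun s => b ^ 2 ∣ M * s + a))) := by
      intro s hs
      by_cases h0 : s = 0
      · simp [h0]
      by_cases h1 : ∀ b ∈ Dq, ∀ a ∈ A, ¬ b ^ 2 ∣ M * s + a
      · rw [mem_union, mem_union]
        left; right
        rw [mem_filter] at hs
        rw [hG, mem_erase, mem_filter]
        exact ⟨h0, hs.1, hs.2, h1⟩
      · push Not at h1
        obtain ⟨b, hb, a, ha, hd⟩ := h1
        rw [mem_union]
        right
        rw [mem_biUnion]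
        refine ⟨b, hb, ?_⟩
        rw [mem_biUnion]
        exact ⟨a, ha, mem_filter.mpr ⟨(mem_filter.mp hs).1, hd⟩⟩
    have hNR : (N : ℝ) = (w : ℝ) ^ (2 * s₁ + 1) := by rw [hN]; push_cast; rfl
    have hw1 : (1 : ℝ) ≤ w := by exact_mod_cast (by omega : 1 ≤ w)
    have hsq : ((#(Dq.biUnion (fun b => A.biUnion (fun a =>
          (range N).filter (fun s => b ^ 2 ∣ M * s + a)))) : ℕ) : ℝ) ≤ 2 * n * (N / w) := by
      have hDqsum : ∑ b ∈ Dq, ((b : ℝ) ^ 2)⁻¹ ≤ 1 / w := by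
        calc ∑ b ∈ Dq, ((b : ℝ) ^ 2)⁻¹ ≤ ∑ b ∈ Ioc w (w ^ (s₁ + 1)), ((b : ℝ) ^ 2)⁻¹ :=
              sum_le_sum_of_subset_of_nonneg (filter_subset _ _) fun b _ _ => by positivity
          _ ≤ (w : ℝ)⁻¹ - ((w ^ (s₁ + 1) : ℕ) : ℝ)⁻¹ :=
              sum_Ioc_inv_sq_le_sub (by omega) (Nat.le_self_pow (by omega) w)
          _ ≤ 1 / w := by
              have : (0 : ℝ) ≤ ((w ^ (s₁ + 1) : ℕ) : ℝ)⁻¹ := by positivity
              rw [one_div]; linarith only [this]
      have hDqcard : (#Dq : ℝ) ≤ N / w := by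
        have h1 : #Dq ≤ w ^ (s₁ + 1) := by
          refine (card_le_card (filter_subset _ _)).trans ?_
          rw [Nat.card_Ioc]; omega
        have h2 : (w : ℝ) ^ (s₁ + 1) ≤ N / w := by
          rw [le_div_iff₀ hw0, hNR, ← pow_succ]
          exact pow_le_pow_right₀ hw1 (by omega)
        exact le_trans (by exact_mod_cast h1) h2
      calc ((#(Dq.biUnion (fun b => A.biUnion (fun a =>
            (range N).filter (fun s => b ^ 2 ∣ M * s + a)))) : ℕ) : ℝ)
          ≤ ∑ b ∈ Dq, ∑ a ∈ A, (#((range N).filter (fun s => b ^ 2 ∣ M * s + a)) : ℝ) := by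
            have h0 := (card_biUnion_le (s := Dq) (t := fun b => A.biUnion (fun a =>
              (range N).filter (fun s => b ^ 2 ∣ M * s + a)))).trans
              (sum_le_sum fun b _ => card_biUnion_le)
            exact_mod_cast h0
        _ ≤ ∑ b ∈ Dq, ∑ a ∈ A, ((N : ℝ) * ((b : ℝ) ^ 2)⁻¹ + 1) := by
            refine sum_le_sum fun b hb => sum_le_sum fun a _ => ?_
            rw [hDq, mem_filter, mem_Ioc] at hb
            have h1 := div_count (M := M) (b := b ^ 2) (a := a) (X := N) (Nat.pow_pos (by omega))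
              (Nat.Coprime.pow_right 2 (hMcop b hb.2 (by omega)))
            push_cast at h1
            rwa [div_eq_mul_inv] at h1
        _ = n * (N * ∑ b ∈ Dq, ((b : ℝ) ^ 2)⁻¹ + #Dq) := sum_aux hAcard N
        _ ≤ n * (N * (1 / w) + N / w) := by gcongr
        _ = 2 * n * (N / w) := arith6 _ _ _
    have h1 := (card_le_card hcov).trans ((card_union_le _ _).trans (Nat.add_le_add_right
      (card_union_le _ _) _))
    rw [card_singleton] at h1
    have h2 : ((#((range N).filter (Sift (bd M 0 A) D)) : ℕ) : ℝ) ≤ 1 + #G +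
      ((#(Dq.biUnion (fun b => A.biUnion (fun a =>
          (range N).filter (fun s => b ^ 2 ∣ M * s + a)))) : ℕ) : ℝ) := by exact_mod_cast h1
    have h16 : (16 : ℝ) ≤ w := by
      have : 16 ≤ w := by
        rw [hwv]
        have h4v : 4 ≤ v := by omega
        calc 16 = 4 ^ 2 := by norm_num
          _ ≤ v ^ 2 := Nat.pow_le_pow_left h4v 2
      exact_mod_cast this
    have h3 : (16 : ℝ) ≤ N * V := by
      have h4 : (w : ℝ) ^ 2 ≤ N := by
        rw [hNR]
        exact pow_le_pow_right₀ hw1 (by omega)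
      exact arith2 h16 hVw hV0.le h4
    have h5 : 2 * n * ((N : ℝ) / w) ≤ N * V / 8 := by
      have h7 : (w : ℝ) = v * v := by rw [hwv]; push_cast; exact pow_two _
      have h8 : (2 : ℝ) ≤ v := by exact_mod_cast (by omega : 2 ≤ v)
      have h9 : (1 : ℝ) ≤ r := by exact_mod_cast hr1
      exact arith3 h7 h8 h9 hn0.le hVlow (Nat.cast_nonneg _) hw0
    exact arith4 h2 hsq h5 h3 hlow
  have hScard : (v : ℝ) ≤ #S := by
    have hN0 : (0 : ℝ) < N := by
      have : 0 < N := lt_of_lt_of_le (by omega) hwN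
      exact_mod_cast this
    have h3 : (w : ℝ) = v * v := by rw [hwv]; push_cast; exact pow_two _
    exact arith5 hN0 hw0 hv0 h3 (hGlow.trans hGS) hVlow (by positivity)
  refine ⟨S, Q, hxv.trans (by exact_mod_cast hScard), hSdisj, fun s hs => ⟨hQcard s (hSG hs),
    fun b hb => ?_, fun B hBB hBQ => ?_⟩⟩
  · have h1 := hQw s (hSG hs) b hb
    refine ⟨h1.1, by omega, h1.2.2.trans (hNle.trans ?_)⟩
    rw [hwv, ← pow_mul]
    calc v ^ (2 * (2 * s₁ + 2)) ≤ (x₀ ^ 2) ^ (2 * (2 * s₁ + 2)) := Nat.pow_le_pow_left hvx _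
      _ = x₀ ^ (2 * (2 * (2 * s₁ + 2))) := by rw [← pow_mul]
  · have h1 := hGm s (hSG hs)
    refine ⟨M * s, Nat.mul_pos hM1 (Nat.pos_of_ne_zero h1.1), fun a ha1 han => ?_⟩
    refine forall₂_congr fun m hm => not_congr ?_
    obtain ⟨b, hb, k, hk, rfl⟩ := hBB m hm
    by_cases hby : b ≤ y₀
    · have h2 : b ^ n ∣ M * s := (hMdvd b hb hby).mul_right s
      by_cases hkn : k ≤ n
      · exact Nat.dvd_add_iff_left ((pow_dvd_pow b hkn).trans h2)
      · push Not at hkn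
        have h3 : n < b ^ n :=
          lt_of_lt_of_le Nat.lt_two_pow_self (Nat.pow_le_pow_left (hB2 b hb) n)
        have h4 : b ^ n ∣ b ^ k := pow_dvd_pow b hkn.le
        have h5 : ¬ b ^ n ∣ a := fun hd => by
          have := Nat.le_of_dvd (by omega) hd
          omega
        constructor
        · intro hd
          exact absurd (h4.trans hd) h5
        · intro hd
          exact absurd ((Nat.dvd_add_iff_left h2).mpr (h4.trans hd)) h5
    · push Not at hby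
      have hbk : b ∣ b ^ k := dvd_pow_self b (by omega)
      have haA : a ∈ A := by rw [hA, mem_Icc]; exact ⟨ha1, han⟩
      constructor
      · intro hd
        have := Nat.le_of_dvd (by omega) (hbk.trans hd)
        omega
      · intro hd
        exfalso
        rw [Nat.add_comm] at hd
        have hbd : b ∣ M * s + a := hbk.trans hd
        have hle : M * s + a ≤ M * N + n := by
          have h2 : M * s ≤ M * N := Nat.mul_le_mul_left _ h1.2.1.le
          omega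
        have hbQs : b ∈ Q s := by
          rw [hQ, mem_filter, mem_Ioc]
          exact ⟨⟨hby, (Nat.le_of_dvd (by omega) hbd).trans hle⟩, hb, a, haA, hbd⟩
        have hwb := (hQw s (hSG hs) b hbQs).2.1
        rcases Nat.lt_or_ge k 2 with hk2 | hk2
        · have hk1 : k = 1 := by omega
          subst hk1
          rw [pow_one] at hm
          exact hBQ b hm hbQs
        · have hd2 : b ^ 2 ∣ M * s + a := (pow_dvd_pow b hk2).trans hd
          refine hGq s (hSG hs) b ?_ a haA hd2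
          rw [hDq, mem_filter, mem_Ioc]
          refine ⟨⟨hwb, ?_⟩, hb⟩
          have h6 : b ^ 2 ≤ (w ^ (s₁ + 1)) ^ 2 := by
            calc b ^ 2 ≤ M * s + a := Nat.le_of_dvd (by omega) hd2
              _ ≤ w ^ (2 * s₁ + 2) := hle.trans hNle
              _ = (w ^ (s₁ + 1)) ^ 2 := by ring
          exact (Nat.pow_le_pow_iff_left (by norm_num)).mp h6

/-- At every scale `x ≥ X₀` there are at least `x` pairwise disjoint sets of at most `r` moduli,
all in `(x, x ^ C]`, such that avoiding one of them is enough for an `n`-translate, for any set `B` of powers of the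
moduli. -/
theorem family (n : ℕ) (hn : 1 ≤ n) : ∃ r C X₀ : ℕ, ∀ BB : Set ℕ, (∀ b ∈ BB, 1 ≤ b) →
    (∀ b ∈ BB, ∀ c ∈ BB, b ≠ c → b.Coprime c) → ∀ x : ℕ, X₀ ≤ x →
      ∃ (S : Finset ℕ) (Q : ℕ → Finset ℕ), x ≤ #S ∧ (S : Set ℕ).PairwiseDisjoint Q ∧
        ∀ s ∈ S, #(Q s) ≤ r ∧ (∀ b ∈ Q s, b ∈ BB ∧ x < b ∧ b ≤ x ^ C) ∧
          ∀ B : Set ℕ, (∀ m ∈ B, ∃ b ∈ BB, ∃ k, 1 ≤ k ∧ m = b ^ k) → (∀ b ∈ B, b ∉ Q s) →
            ∃ t ≥ 1, ∀ a, 1 ≤ a → a ≤ n → ((∀ b ∈ B, ¬ b ∣ a) ↔ ∀ b ∈ B, ¬ b ∣ a + t) := by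
  obtain ⟨r, C, X₀, h⟩ := family_two n hn
  refine ⟨r, C, X₀, fun BB hB1 hBc x hx => ?_⟩
  obtain ⟨S, Q, hS, hd, hQ⟩ := h {b | b ∈ BB ∧ b ≠ 1}
    (fun b hb => by have := hB1 b hb.1; have := hb.2; omega)
    (fun b hb c hc hbc => hBc b hb.1 c hc.1 hbc) x hx
  refine ⟨S, Q, hS, hd, fun s hs => ?_⟩
  obtain ⟨h1, h2, h3⟩ := hQ s hs
  refine ⟨h1, fun b hb => ⟨(h2 b hb).1.1, (h2 b hb).2⟩, fun B hB hBQ => ?_⟩
  by_cases h1B : 1 ∈ B
  · exact ⟨1, le_rfl, fun a _ _ => ⟨fun h => absurd (one_dvd a) (h 1 h1B),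
      fun h => absurd (one_dvd (a + 1)) (h 1 h1B)⟩⟩
  · refine h3 B (fun m hm => ?_) hBQ
    obtain ⟨b, hb, k, hk, rfl⟩ := hB m hm
    exact ⟨b, ⟨hb, fun hb1 => h1B (by rw [hb1, one_pow] at hm; exact hm)⟩, k, hk, rfl⟩

end Pool.Agent.H40R
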