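import Pool.Agent.H40R.Sieve
import Pool.Agent.H14Trans.Cor

/-!
# Deleting a sparse subset
-/

set_option autoImplicit false

namespace Pool.Agent.H40R

open Filter Pool.Agent.H14Trans

lemma recip_add {BB B C : Set ℕ} (h : ∀ b, b ∈ BB ↔ b ∈ B ∨ b ∈ C) (hd : ∀ b ∈ B, b ∉ C)
    (x : ℝ) : recip BB x = recip B x + recip C x := by
  classical
  unfold recip
  rw [← Finset.sum_union]
  · refine Finset.sum_congr ?_ fun _ _ => rfl
    ext b
    simp only [Finset.mem_filter, Finset.mem_union, Finset.mem_range, h b]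
    tauto
  · rw [Finset.disjoint_left]
    intro b hb hb'
    rw [Finset.mem_filter] at hb hb'
    exact hd b hb.2 hb'.2

lemma recip_sub (BB B : Set ℕ) (h : B ⊆ BB) (x : ℝ) :
    recip BB x = recip B x + recip (BB \ B) x := by
  refine recip_add (fun b => ?_) (fun b hb hb' => hb'.2 hb) x
  constructor
  · intro hb
    by_cases hbB : b ∈ B
    · exact Or.inl hbB
    · exact Or.inr ⟨hb, hbB⟩
  · rintro (hb | hb)
    · exact h hb
    · exact hb.1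

lemma recip_cover {D : Set ℕ} {Q : ℕ → Finset ℕ} {ε : ℝ} (hε : 0 < ε)
    (key : ∀ b ∈ D, ∃ n, 1 ≤ n ∧ n < b ∧ b ∈ Q n)
    (hQ : ∀ n, 1 ≤ n → ∑ b ∈ Q n, (1 : ℝ) / b ≤ ε * (1 / 2) ^ n) (x : ℝ) : recip D x ≤ ε := by
  classical
  unfold recip
  set X := ⌈x⌉₊ with hX
  refine le_trans (Finset.sum_le_sum_of_subset_of_nonneg (t := (Finset.Icc 1 X).biUnion Q)
    ?_ fun b _ _ => by positivity) ?_
  · intro b hb
    rw [Finset.mem_filter, Finset.mem_range] at hb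
    obtain ⟨n, hn, hnb, hbQ⟩ := key b hb.2
    rw [Finset.mem_biUnion]
    exact ⟨n, by rw [Finset.mem_Icc]; omega, hbQ⟩
  calc ∑ b ∈ (Finset.Icc 1 X).biUnion Q, (1 : ℝ) / b
      ≤ ∑ n ∈ Finset.Icc 1 X, ∑ b ∈ Q n, (1 : ℝ) / b := sum_biUnion_le fun b => by positivity
    _ ≤ ∑ n ∈ Finset.Icc 1 X, ε * (1 / 2) ^ n := by
        refine Finset.sum_le_sum fun n hn => ?_
        rw [Finset.mem_Icc] at hn
        exact hQ n hn.1
    _ = ε * ∑ n ∈ Finset.Icc 1 X, (1 / 2 : ℝ) ^ n := by rw [Finset.mul_sum]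
    _ ≤ ε * 1 := by
        refine mul_le_mul_of_nonneg_left ?_ hε.le
        have h7 : ∀ X : ℕ, ∑ n ∈ Finset.Icc 1 X, (1 / 2 : ℝ) ^ n = 1 - (1 / 2) ^ X := by
          intro X
          induction X with
          | zero => simp
          | succ X ih => rw [Finset.sum_Icc_succ_top (by omega), ih]; ring
        rw [h7]
        have : (0 : ℝ) ≤ (1 / 2) ^ X := by positivity
        linarith
    _ = ε := mul_one ε

/-- Every pairwise coprime set has a subset with all translates whose complement is as sparse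
as we like. -/
theorem sparse {BB : Set ℕ} (h2 : ∀ b ∈ BB, 1 ≤ b)
    (hc : ∀ b ∈ BB, ∀ c ∈ BB, b ≠ c → b.Coprime c) {g : ℕ → ℕ} (hg : Tendsto g atTop atTop)
    {ε : ℝ} (hε : 0 < ε) :
    ∃ B ⊆ BB, (∀ x : ℕ, {b | b ∈ BB ∧ b ∉ B ∧ b ≤ x}.ncard ≤ g x) ∧
      (∀ x : ℝ, recip (BB \ B) x ≤ ε) ∧
      ∀ n : ℕ, 1 ≤ n → ∃ t ≥ 1, ∀ a, 1 ≤ a → a ≤ n →
        ((∀ b ∈ B, ¬ b ∣ a) ↔ ∀ b ∈ B, ¬ b ∣ a + t) := by
  classical
  have h1 : ∀ n : ℕ, ∃ r : ℕ, 1 ≤ n → ∀ x₀ : ℕ, ∃ v : ℕ, x₀ ≤ v ∧ ∃ Q : Finset ℕ,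
      Q.card ≤ r ∧ (∀ b ∈ Q, v < b) ∧ ∀ B : Set ℕ, B ⊆ BB → (∀ b ∈ B, b ∉ Q) →
        ∃ t ≥ 1, ∀ a, 1 ≤ a → a ≤ n → ((∀ b ∈ B, ¬ b ∣ a) ↔ ∀ b ∈ B, ¬ b ∣ a + t) := by
    intro n
    by_cases hn : 1 ≤ n
    · obtain ⟨r, C, X₀, hF⟩ := family n hn
      refine ⟨r, fun _ x₀ => ?_⟩
      obtain ⟨S, Q, hS, _, hQ⟩ := hF BB h2 hc (max (max x₀ 1) X₀) (le_max_right _ _)
      have hv1 : 1 ≤ max (max x₀ 1) X₀ := (le_max_right _ _).trans (le_max_left _ _)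
      obtain ⟨s, hs⟩ := Finset.card_pos.mp (by omega : 0 < S.card)
      obtain ⟨q1, q2, q3⟩ := hQ s hs
      exact ⟨_, (le_max_left _ _).trans (le_max_left _ _), Q s, q1,
        fun b hb => (q2 b hb).2.1,
        fun B hB => q3 B fun m hm => ⟨m, hB hm, 1, le_rfl, (pow_one m).symm⟩⟩
    · exact ⟨0, fun h => absurd h hn⟩
  choose r hr using h1
  have h3 : ∀ n : ℕ, ∃ (v : ℕ) (Q : Finset ℕ), 1 ≤ n → n ≤ v ∧
      (∀ x, v ≤ x → ∑ k ∈ Finset.range (n + 1), r k ≤ g x) ∧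
      Q.card ≤ r n ∧ (∀ b ∈ Q, v < b) ∧ (∀ B : Set ℕ, B ⊆ BB → (∀ b ∈ B, b ∉ Q) →
        ∃ t ≥ 1, ∀ a, 1 ≤ a → a ≤ n → ((∀ b ∈ B, ¬ b ∣ a) ↔ ∀ b ∈ B, ¬ b ∣ a + t)) ∧
      (r n : ℝ) * (1 / v) ≤ ε * (1 / 2) ^ n := by
    intro n
    by_cases hn : 1 ≤ n
    · obtain ⟨x₁, hx₁⟩ := eventually_atTop.mp
        (hg.eventually (eventually_ge_atTop (∑ k ∈ Finset.range (n + 1), r k)))
      obtain ⟨x₂, hx₂⟩ := exists_nat_ge ((r n : ℝ) / (ε * (1 / 2) ^ n))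
      obtain ⟨v, hv, Q, hQ1, hQ2, hQ3⟩ := hr n hn (max (max x₁ n) x₂)
      have hv1 : x₁ ≤ v := ((le_max_left _ _).trans (le_max_left _ _)).trans hv
      have hv2 : n ≤ v := ((le_max_right _ _).trans (le_max_left _ _)).trans hv
      have hv3 : x₂ ≤ v := (le_max_right _ _).trans hv
      refine ⟨v, Q, fun _ => ⟨hv2, fun x hx => hx₁ x (hv1.trans hx), hQ1, hQ2, hQ3, ?_⟩⟩
      have h4 : (x₂ : ℝ) ≤ v := by exact_mod_cast hv3
      have h5 : (0 : ℝ) < v := by exact_mod_cast (by omega : 0 < v)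
      have h6 := hx₂.trans h4
      rw [div_le_iff₀ (by positivity)] at h6
      rw [mul_one_div, div_le_iff₀ h5]
      linarith
    · exact ⟨0, ∅, fun h => absurd h hn⟩
  choose v Q hvQ using h3
  set B : Set ℕ := {b | b ∈ BB ∧ ∀ n, 1 ≤ n → b ∉ Q n} with hB
  have key : ∀ b, b ∈ BB → b ∉ B → ∃ n, 1 ≤ n ∧ n < b ∧ v n < b ∧ b ∈ Q n := by
    intro b hb1 hb2
    simp only [hB, Set.mem_ofPred_eq, not_and, not_forall, not_not] at hb2
    obtain ⟨n, hn, hbQ⟩ := hb2 hb1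
    obtain ⟨q1, q2, q3, q4, q5⟩ := hvQ n hn
    have h4 := q4 b hbQ
    exact ⟨n, hn, by omega, h4, hbQ⟩
  refine ⟨B, fun b hb => hb.1, fun x => ?_, fun x => ?_, fun n hn => ?_⟩
  · set T : Finset ℕ := (Finset.Icc 1 x).filter (fun n => v n < x) with hT
    have hsub : {b | b ∈ BB ∧ b ∉ B ∧ b ≤ x} ⊆ ((T.biUnion Q : Finset ℕ) : Set ℕ) := by
      rintro b ⟨hb1, hb2, hb3⟩
      obtain ⟨n, hn, hnb, hvb, hbQ⟩ := key b hb1 hb2
      rw [Finset.coe_biUnion, Set.mem_iUnion₂]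
      refine ⟨n, ?_, hbQ⟩
      simp only [hT, Finset.coe_filter, Finset.mem_Icc, Set.mem_ofPred_eq]
      omega
    have h5 : {b | b ∈ BB ∧ b ∉ B ∧ b ≤ x}.ncard ≤ (T.biUnion Q).card := by
      rw [← Set.ncard_coe_finset]
      exact Set.ncard_le_ncard hsub (Finset.finite_toSet _)
    refine h5.trans (Finset.card_biUnion_le.trans ?_)
    rcases T.eq_empty_or_nonempty with h0 | h0
    · rw [h0]; simp
    · set N := T.max' h0 with hN
      have hNT : N ∈ T := T.max'_mem h0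
      have hN' := hNT
      rw [hT, Finset.mem_filter, Finset.mem_Icc] at hN'
      obtain ⟨q1, q2, q3, q4, q5⟩ := hvQ N hN'.1.1
      calc ∑ n ∈ T, (Q n).card ≤ ∑ n ∈ T, r n := by
            refine Finset.sum_le_sum fun n hn => ?_
            have hn' := hn
            rw [hT, Finset.mem_filter, Finset.mem_Icc] at hn'
            exact (hvQ n hn'.1.1).2.2.1
        _ ≤ ∑ k ∈ Finset.range (N + 1), r k := by
            refine Finset.sum_le_sum_of_subset fun n hn => ?_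
            rw [Finset.mem_range]
            exact Nat.lt_succ_of_le (T.le_max' n hn)
        _ ≤ g x := q2 x hN'.2.le
  · refine recip_cover (Q := Q) hε (fun b hb => ?_) (fun n hn => ?_) x
    · obtain ⟨n, hn, hnb, _, hbQ⟩ := key b hb.1 hb.2
      exact ⟨n, hn, hnb, hbQ⟩
    · obtain ⟨q1, q2, q3, q4, q5, q6⟩ := hvQ n hn
      refine le_trans ?_ q6
      have hv0 : (0 : ℝ) < v n := by exact_mod_cast (by omega : 0 < v n)
      calc ∑ b ∈ Q n, (1 : ℝ) / b ≤ ∑ b ∈ Q n, (1 : ℝ) / v n := by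
            refine Finset.sum_le_sum fun b hb => ?_
            have : (v n : ℝ) ≤ b := by exact_mod_cast (q4 b hb).le
            exact one_div_le_one_div_of_le hv0 this
        _ = (Q n).card * (1 / v n) := by rw [Finset.sum_const, nsmul_eq_mul]
        _ ≤ (r n : ℝ) * (1 / v n) := by
            have : ((Q n).card : ℝ) ≤ r n := by exact_mod_cast q3
            gcongr
  · exact (hvQ n hn).2.2.2.2.1 _ (fun b hb => hb.1) (fun b hb => hb.2 n hn)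

end Pool.Agent.H40R
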